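import Mathlib

/-!
Dissections of plane polygons into triangles: basic facts.
-/

open MeasureTheory Set
open scoped ComplexConjugate

namespace Pool.Agent.Helper37.Dis

noncomputable section

/-- The closed triangle with vertices `a, b, c`. -/
def tri (a b c : ℂ) : Set ℂ := convexHull ℝ {a, b, c}

/-- Signed area form. -/
def cross (u v : ℂ) : ℝ := u.re * v.im - u.im * v.re

/-- `z ↦ re z • u + im z • v`. -/
def lin (u v : ℂ) : ℂ →ₗ[ℝ] ℂ where
  toFun z := z.re • u + z.im • v
  map_add' x y := by simp only [Complex.add_re, Complex.add_im]; module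
  map_smul' r x := by
    simp only [Complex.smul_re, Complex.smul_im, smul_eq_mul, RingHom.id_apply]; module

theorem lin_apply (u v z : ℂ) : lin u v z = z.re • u + z.im • v := rfl

theorem det_lin (u v : ℂ) : LinearMap.det (lin u v) = cross u v := by
  rw [← LinearMap.det_toMatrix Complex.basisOneI, Matrix.det_fin_two]
  simp only [LinearMap.toMatrix_apply, Complex.coe_basisOneI, lin_apply]
  simp [Complex.coe_basisOneI_repr, cross]
  ring

/-- The standard triangle. -/
def std : Set ℂ := tri 0 1 Complex.I

theorem tri_eq_image (a b c : ℂ) :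
    tri a b c = (fun z => a + z) '' (lin (b - a) (c - a) '' std) := by
  unfold tri std tri
  have h1 : lin (b - a) (c - a) '' convexHull ℝ {0, 1, Complex.I} =
      convexHull ℝ (lin (b - a) (c - a) '' {0, 1, Complex.I}) :=
    (lin (b - a) (c - a)).image_convexHull _
  rw [h1]
  have h2 : lin (b - a) (c - a) '' {0, 1, Complex.I} = {0, b - a, c - a} := by
    simp [image_insert_eq, lin_apply]
  rw [h2]
  have h3 := AffineMap.image_convexHull (𝕜 := ℝ)
    (AffineMap.const ℝ ℂ a + AffineMap.id ℝ ℂ : ℂ →ᵃ[ℝ] ℂ) ({0, b - a, c - a} : Set ℂ)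
  have h4 : ((AffineMap.const ℝ ℂ a + AffineMap.id ℝ ℂ : ℂ →ᵃ[ℝ] ℂ) : ℂ → ℂ) =
      fun z => a + z := by
    ext z; simp
  rw [h4] at h3
  rw [h3]
  congr 1
  simp [image_insert_eq]

theorem convex_tri (a b c : ℂ) : Convex ℝ (tri a b c) := convex_convexHull ℝ _

theorem isCompact_tri (a b c : ℂ) : IsCompact (tri a b c) := by
  unfold tri
  exact (Set.toFinite _).isCompact_convexHull ℝ

theorem left_mem (a b c : ℂ) : a ∈ tri a b c := subset_convexHull ℝ _ (by simp)
theorem mid_mem (a b c : ℂ) : b ∈ tri a b c := subset_convexHull ℝ _ (by simp)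
theorem right_mem (a b c : ℂ) : c ∈ tri a b c := subset_convexHull ℝ _ (by simp)

theorem tri_subset {a b c : ℂ} {s : Set ℂ} (hs : Convex ℝ s) (ha : a ∈ s) (hb : b ∈ s)
    (hc : c ∈ s) : tri a b c ⊆ s := by
  apply convexHull_min _ hs
  intro z hz
  simp only [mem_insert_iff, mem_singleton_iff] at hz
  rcases hz with rfl | rfl | rfl <;> assumption

/-- Barycentric membership. -/
theorem bary_mem {a b c : ℂ} {x y z : ℝ} (hx : 0 ≤ x) (hy : 0 ≤ y) (hz : 0 ≤ z)
    (h : x + y + z = 1) : x • a + y • b + z • c ∈ tri a b c := by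
  have hconv := convex_tri a b c
  have := hconv.sum_mem (t := Finset.univ) (w := ![x, y, z]) (z := ![a, b, c])
    (by intro i _; fin_cases i <;> simpa) (by simp [Fin.sum_univ_three, h])
    (by
      intro i _
      fin_cases i
      · simpa using left_mem a b c
      · simpa using mid_mem a b c
      · simpa using right_mem a b c)
  simpa [Fin.sum_univ_three] using this

theorem mem_tri_of_cross {a b c z : ℂ} (hD : 0 < cross (b - a) (c - a))
    (h1 : 0 ≤ cross (b - a) (z - a)) (h2 : 0 ≤ cross (c - b) (z - b))
    (h3 : 0 ≤ cross (a - c) (z - c)) : z ∈ tri a b c := by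
  set D := cross (b - a) (c - a) with hDdef
  have key : z = (cross (c - b) (z - b) / D) • a + (cross (a - c) (z - c) / D) • b +
      (cross (b - a) (z - a) / D) • c := by
    have hD' : D ≠ 0 := hD.ne'
    apply Complex.ext
    · simp only [Complex.add_re, Complex.real_smul, Complex.mul_re, Complex.ofReal_re,
        Complex.ofReal_im, zero_mul, sub_zero]
      field_simp
      rw [hDdef]; simp only [cross, Complex.sub_re, Complex.sub_im]; ring
    · simp only [Complex.add_im, Complex.real_smul, Complex.mul_im, Complex.ofReal_re,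
        Complex.ofReal_im, zero_mul, add_zero]
      field_simp
      rw [hDdef]; simp only [cross, Complex.sub_re, Complex.sub_im]; ring
  rw [key]
  apply bary_mem (div_nonneg h2 hD.le) (div_nonneg h3 hD.le) (div_nonneg h1 hD.le)
  have hD' : D ≠ 0 := hD.ne'
  field_simp
  rw [hDdef]; simp only [cross, Complex.sub_re, Complex.sub_im]; ring

/-- The constant: area of the standard triangle. -/
def kap : ENNReal := volume std

theorem kap_ne_top : kap ≠ ⊤ := (isCompact_tri 0 1 Complex.I).measure_lt_top.ne

theorem interior_tri_nonempty {a b c : ℂ} (hD : 0 < cross (b - a) (c - a)) :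
    (interior (tri a b c)).Nonempty := by
  -- the centroid has a neighbourhood given by strict inequalities
  refine ⟨(1 / 3 : ℝ) • a + (1 / 3 : ℝ) • b + (1 / 3 : ℝ) • c, ?_⟩
  set g : ℂ := (1 / 3 : ℝ) • a + (1 / 3 : ℝ) • b + (1 / 3 : ℝ) • c with hg
  have hgre : g.re = (a.re + b.re + c.re) / 3 := by rw [hg]; simp; ring
  have hgim : g.im = (a.im + b.im + c.im) / 3 := by rw [hg]; simp; ring
  rw [mem_interior]
  refine ⟨{z | 0 < cross (b - a) (z - a) ∧ 0 < cross (c - b) (z - b) ∧
    0 < cross (a - c) (z - c)}, ?_, ?_, ?_⟩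
  · intro z hz
    exact mem_tri_of_cross hD hz.1.le hz.2.1.le hz.2.2.le
  · have hc : ∀ u v : ℂ, Continuous fun z : ℂ => cross u (z - v) := by
      intro u v
      unfold cross
      fun_prop
    exact (isOpen_lt continuous_const (hc _ _)).inter
      ((isOpen_lt continuous_const (hc _ _)).inter (isOpen_lt continuous_const (hc _ _)))
  · simp only [mem_ofPred_eq, cross, Complex.sub_re, Complex.sub_im, hgre, hgim] at hD ⊢
    refine ⟨?_, ?_, ?_⟩ <;> nlinarith

theorem kap_ne_zero : kap ≠ 0 := by
  have h : (interior std).Nonempty := by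
    apply interior_tri_nonempty
    simp [cross]
  have := isOpen_interior.measure_pos volume h
  intro h0
  have h2 : volume (interior std) ≤ volume std := measure_mono interior_subset
  rw [show volume std = 0 from h0] at h2
  exact absurd this (by simpa using h2)

theorem volume_tri (a b c : ℂ) :
    volume (tri a b c) = ENNReal.ofReal |cross (b - a) (c - a)| * kap := by
  rw [tri_eq_image]
  have h1 : volume ((fun z => a + z) '' (lin (b - a) (c - a) '' std)) =
      volume (lin (b - a) (c - a) '' std) := by
    simpa using measure_preimage_add volume (-a) (lin (b - a) (c - a) '' std)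
  rw [h1, Measure.addHaar_image_linearMap, det_lin]
  rfl

theorem volume_interior_tri (a b c : ℂ) :
    volume (interior (tri a b c)) = volume (tri a b c) := by
  have h := (convex_tri a b c).addHaar_frontier (μ := volume)
  apply le_antisymm (measure_mono interior_subset)
  have h2 : tri a b c ⊆ interior (tri a b c) ∪ frontier (tri a b c) := by
    intro z hz
    rw [← closure_eq_interior_union_frontier]
    exact subset_closure hz
  calc volume (tri a b c) ≤ volume (interior (tri a b c) ∪ frontier (tri a b c)) :=
        measure_mono h2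
    _ ≤ volume (interior (tri a b c)) + volume (frontier (tri a b c)) := measure_union_le _ _
    _ = _ := by rw [h, add_zero]

/-- Separation: two sets on the two sides of a line have disjoint interiors. -/
theorem disjoint_interior_of_sep {d : ℂ} (hd : d ≠ 0) {t : ℝ} {P Q : Set ℂ}
    (hP : ∀ z ∈ P, cross d z ≤ t) (hQ : ∀ z ∈ Q, t ≤ cross d z) :
    Disjoint (interior P) (interior Q) := by
  rw [Set.disjoint_left]
  intro z hzP hzQ
  have h1 : cross d z ≤ t := hP z (interior_subset hzP)
  -- move in the direction increasing cross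
  have hopen : ∀ᶠ e : ℝ in nhds (0 : ℝ), z + (e : ℂ) * (Complex.I * d) ∈ interior P := by
    have hc : Filter.Tendsto (fun e : ℝ => z + (e : ℂ) * (Complex.I * d)) (nhds 0) (nhds z) := by
      have : Continuous fun e : ℝ => z + (e : ℂ) * (Complex.I * d) := by fun_prop
      simpa using this.tendsto 0
    exact hc (isOpen_interior.mem_nhds hzP)
  have hpos : (∃ᶠ e in nhds (0 : ℝ), 0 < e) := by
    have : (nhdsWithin (0 : ℝ) (Set.Ioi 0)).NeBot := inferInstance
    have h2 : ∀ᶠ e in nhdsWithin (0 : ℝ) (Set.Ioi 0), 0 < e := by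
      filter_upwards [self_mem_nhdsWithin] with e he using he
    exact (h2.frequently).filter_mono nhdsWithin_le_nhds
  obtain ⟨e, he, hze⟩ := (hpos.and_eventually hopen).exists
  have h3 := hP _ (interior_subset hze)
  have h4 : cross d (z + (e : ℂ) * (Complex.I * d)) = cross d z + e * Complex.normSq d := by
    simp [cross, Complex.normSq_apply]
    ring
  have h5 : t ≤ cross d z := hQ z (interior_subset hzQ)
  have h6 : 0 < Complex.normSq d := Complex.normSq_pos.mpr hd
  rw [h4] at h3
  nlinarith [mul_pos he h6]

theorem convex_cross_le (d : ℂ) (t : ℝ) : Convex ℝ {z : ℂ | cross d z ≤ t} := by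
  intro x hx y hy a b ha hb hab
  simp only [mem_ofPred_eq] at hx hy ⊢
  have : cross d (a • x + b • y) = a * cross d x + b * cross d y := by
    simp [cross]; ring
  rw [this]
  have h1 := mul_le_mul_of_nonneg_left hx ha
  have h2 := mul_le_mul_of_nonneg_left hy hb
  calc _ ≤ a * t + b * t := add_le_add h1 h2
    _ = t := by rw [← add_mul, hab, one_mul]

theorem convex_le_cross (d : ℂ) (t : ℝ) : Convex ℝ {z : ℂ | t ≤ cross d z} := by
  intro x hx y hy a b ha hb hab
  simp only [mem_ofPred_eq] at hx hy ⊢
  have : cross d (a • x + b • y) = a * cross d x + b * cross d y := by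
    simp [cross]; ring
  rw [this]
  have h1 := mul_le_mul_of_nonneg_left hx ha
  have h2 := mul_le_mul_of_nonneg_left hy hb
  calc t = a * t + b * t := by rw [← add_mul, hab, one_mul]
    _ ≤ _ := add_le_add h1 h2

/-- Finite interior disjoint families of triangles inside a convex set with the right total area
cover it. -/
theorem iUnion_eq_of_volume {ι : Type*} [Fintype ι] {P : Set ℂ} (hP : Convex ℝ P)
    (hne : (interior P).Nonempty) {S : ℝ} (hv : volume P ≤ ENNReal.ofReal S * kap)
    {a b c : ι → ℂ} (hpos : ∀ i, 0 < cross (b i - a i) (c i - a i))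
    (hsub : ∀ i, tri (a i) (b i) (c i) ⊆ P)
    (hdis : Pairwise fun i j =>
      Disjoint (interior (tri (a i) (b i) (c i))) (interior (tri (a j) (b j) (c j))))
    (hsum : ∑ i, cross (b i - a i) (c i - a i) = S) :
    ⋃ i, tri (a i) (b i) (c i) = P := by
  classical
  set U := ⋃ i, tri (a i) (b i) (c i) with hU
  have hUT : U ⊆ P := iUnion_subset hsub
  have hUc : IsClosed U := isClosed_iUnion_of_finite fun i => (isCompact_tri _ _ _).isClosed
  have hvU : volume P ≤ volume U := by
    calc volume P ≤ ENNReal.ofReal (∑ i, cross (b i - a i) (c i - a i)) * kap := by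
          rw [hsum]; exact hv
      _ = ∑ i, volume (interior (tri (a i) (b i) (c i))) := by
          rw [ENNReal.ofReal_sum_of_nonneg (fun i _ => (hpos i).le), Finset.sum_mul]
          apply Finset.sum_congr rfl
          intro i _
          rw [volume_interior_tri, volume_tri, abs_of_pos (hpos i)]
      _ = volume (⋃ i, interior (tri (a i) (b i) (c i))) := by
          rw [measure_iUnion hdis (fun i => isOpen_interior.measurableSet), tsum_fintype]
      _ ≤ volume U := measure_mono (iUnion_mono fun i => interior_subset)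
  have hfin : volume U ≠ ⊤ := by
    have h1 : volume P ≠ ⊤ :=
      ne_top_of_le_ne_top (ENNReal.mul_ne_top ENNReal.ofReal_ne_top kap_ne_top) hv
    exact ne_top_of_le_ne_top h1 (measure_mono hUT)
  have hnull : volume (P \ U) = 0 := by
    rw [measure_diff hUT hUc.measurableSet.nullMeasurableSet hfin]
    exact tsub_eq_zero_of_le hvU
  apply Subset.antisymm hUT
  intro z hz
  by_contra hzU
  have hcl : z ∈ closure (interior P) := by
    rw [hP.closure_interior_eq_closure_of_nonempty_interior hne]
    exact subset_closure hz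
  have hopen : IsOpen (interior P ∩ Uᶜ) := isOpen_interior.inter hUc.isOpen_compl
  have hne : (interior P ∩ Uᶜ).Nonempty := by
    have := mem_closure_iff.mp hcl Uᶜ hUc.isOpen_compl hzU
    rwa [inter_comm] at this
  have h1 := hopen.measure_pos volume hne
  have h2 : volume (interior P ∩ Uᶜ) ≤ volume (P \ U) := by
    apply measure_mono
    intro w hw
    exact ⟨interior_subset hw.1, hw.2⟩
  rw [hnull] at h2
  exact absurd h1 (by simpa using h2)

/-- Finite interior disjoint families of triangles inside a triangle with the right total area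
cover the triangle. -/
theorem iUnion_tri_eq {ι : Type*} [Fintype ι] {A B C : ℂ} {a b c : ι → ℂ}
    (hD : 0 < cross (B - A) (C - A)) (hpos : ∀ i, 0 < cross (b i - a i) (c i - a i))
    (ha : ∀ i, a i ∈ tri A B C) (hb : ∀ i, b i ∈ tri A B C) (hc : ∀ i, c i ∈ tri A B C)
    (hdis : Pairwise fun i j =>
      Disjoint (interior (tri (a i) (b i) (c i))) (interior (tri (a j) (b j) (c j))))
    (hsum : ∑ i, cross (b i - a i) (c i - a i) = cross (B - A) (C - A)) :
    ⋃ i, tri (a i) (b i) (c i) = tri A B C := by
  refine iUnion_eq_of_volume (convex_tri A B C) (interior_tri_nonempty hD)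
    (S := cross (B - A) (C - A)) ?_ hpos
    (fun i => tri_subset (convex_tri _ _ _) (ha i) (hb i) (hc i)) hdis hsum
  rw [volume_tri, abs_of_pos hD]

/-- Convex quadrilaterals, written as the union of two triangles. -/
def quad (a b c d : ℂ) : Set ℂ := tri a b c ∪ tri a c d

theorem quad_eq {a b c d : ℂ} (h1 : 0 < cross (b - a) (c - a)) (h2 : 0 < cross (c - a) (d - a))
    (h3 : 0 ≤ cross (b - a) (d - a)) (h4 : 0 ≤ cross (d - c) (b - c)) :
    quad a b c d = {z | 0 ≤ cross (b - a) (z - a) ∧ 0 ≤ cross (c - b) (z - b) ∧
      0 ≤ cross (d - c) (z - c) ∧ 0 ≤ cross (a - d) (z - d)} := by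
  have hconv : Convex ℝ {z : ℂ | 0 ≤ cross (b - a) (z - a) ∧ 0 ≤ cross (c - b) (z - b) ∧
      0 ≤ cross (d - c) (z - c) ∧ 0 ≤ cross (a - d) (z - d)} := by
    have key : ∀ u v : ℂ, Convex ℝ {z : ℂ | 0 ≤ cross u (z - v)} := by
      intro u v
      have := convex_le_cross u (cross u v)
      convert this using 1
      ext z
      simp only [mem_ofPred_eq]
      have : cross u (z - v) = cross u z - cross u v := by simp [cross]; ring
      rw [this, sub_nonneg]
    exact (key _ _).inter ((key _ _).inter ((key _ _).inter (key _ _)))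
  apply Subset.antisymm
  · apply union_subset
    · apply tri_subset hconv
      · refine ⟨?_, ?_, ?_, ?_⟩ <;>
          simp only [cross, Complex.sub_re, Complex.sub_im] at * <;> nlinarith
      · refine ⟨?_, ?_, ?_, ?_⟩ <;>
          simp only [cross, Complex.sub_re, Complex.sub_im] at * <;> nlinarith
      · refine ⟨?_, ?_, ?_, ?_⟩ <;>
          simp only [cross, Complex.sub_re, Complex.sub_im] at * <;> nlinarith
    · apply tri_subset hconv
      · refine ⟨?_, ?_, ?_, ?_⟩ <;>
          simp only [cross, Complex.sub_re, Complex.sub_im] at * <;> nlinarith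
      · refine ⟨?_, ?_, ?_, ?_⟩ <;>
          simp only [cross, Complex.sub_re, Complex.sub_im] at * <;> nlinarith
      · refine ⟨?_, ?_, ?_, ?_⟩ <;>
          simp only [cross, Complex.sub_re, Complex.sub_im] at * <;> nlinarith
  · rintro z ⟨e1, e2, e3, e4⟩
    rcases le_total 0 (cross (c - a) (z - a)) with h | h
    · right
      exact mem_tri_of_cross h2 h e3 e4
    · left
      apply mem_tri_of_cross h1 e1 e2
      simp only [cross, Complex.sub_re, Complex.sub_im] at *
      nlinarith

theorem quad_convex {a b c d : ℂ} (h1 : 0 < cross (b - a) (c - a))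
    (h2 : 0 < cross (c - a) (d - a))
    (h3 : 0 ≤ cross (b - a) (d - a)) (h4 : 0 ≤ cross (d - c) (b - c)) :
    Convex ℝ (quad a b c d) := by
  rw [quad_eq h1 h2 h3 h4]
  have key : ∀ u v : ℂ, Convex ℝ {z : ℂ | 0 ≤ cross u (z - v)} := by
    intro u v
    have := convex_le_cross u (cross u v)
    convert this using 1
    ext z
    simp only [mem_ofPred_eq]
    have : cross u (z - v) = cross u z - cross u v := by simp [cross]; ring
    rw [this, sub_nonneg]
  exact (key _ _).inter ((key _ _).inter ((key _ _).inter (key _ _)))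

theorem volume_quad_le {a b c d : ℂ} (h1 : 0 < cross (b - a) (c - a))
    (h2 : 0 < cross (c - a) (d - a)) :
    volume (quad a b c d) ≤
      ENNReal.ofReal (cross (b - a) (c - a) + cross (c - a) (d - a)) * kap := by
  calc volume (quad a b c d) ≤ volume (tri a b c) + volume (tri a c d) := measure_union_le _ _
    _ = _ := by
      rw [volume_tri, volume_tri, abs_of_pos h1, abs_of_pos h2,
        ENNReal.ofReal_add h1.le h2.le, add_mul]

/-- If two closed sets have interiors disjoint from an open set, so has their union. -/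
theorem disjoint_interior_union {s t W : Set ℂ} (hs : IsClosed s) (hW : IsOpen W)
    (h1 : Disjoint (interior s) W) (h2 : Disjoint (interior t) W) :
    Disjoint (interior (s ∪ t)) W := by
  rw [Set.disjoint_left]
  intro z hz hzW
  set O := interior (s ∪ t) ∩ W with hO
  have hOo : IsOpen O := isOpen_interior.inter hW
  have hzO : z ∈ O := ⟨hz, hzW⟩
  by_cases hsub : O ⊆ s
  · have : z ∈ interior s := mem_interior.mpr ⟨O, hsub, hOo, hzO⟩
    exact Set.disjoint_left.mp h1 this hzW
  · obtain ⟨w, hwO, hws⟩ := Set.not_subset.mp hsub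
    have hsub2 : O ∩ sᶜ ⊆ t := by
      intro x hx
      rcases interior_subset hx.1.1 with h | h
      · exact absurd h hx.2
      · exact h
    have : w ∈ interior t :=
      mem_interior.mpr ⟨O ∩ sᶜ, hsub2, hOo.inter hs.isOpen_compl, ⟨hwO, hws⟩⟩
    exact Set.disjoint_left.mp h2 this hwO.2

end

end Pool.Agent.Helper37.Dis
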