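import Pool.Agent.Helper37.Dis.Basic

/-!
A checker for dissections of a triangle into triangles, with exact coordinates in `ℤ[√2]`.
-/

open MeasureTheory Set

namespace Pool.Agent.Helper37.Dis

/-- `a + b √2`. -/
structure Z2 where
  a : ℤ
  b : ℤ

namespace Z2

def mul (x y : Z2) : Z2 := ⟨x.a * y.a + 2 * (x.b * y.b), x.a * y.b + x.b * y.a⟩
def sub (x y : Z2) : Z2 := ⟨x.a - y.a, x.b - y.b⟩
def add (x y : Z2) : Z2 := ⟨x.a + y.a, x.b + y.b⟩

/-- decides `0 ≤ a + b √2` -/
def nonneg (x : Z2) : Bool :=
  if 0 ≤ x.a then
    if 0 ≤ x.b then true else decide (2 * (x.b * x.b) ≤ x.a * x.a)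
  else
    if x.b ≤ 0 then false else decide (x.a * x.a ≤ 2 * (x.b * x.b))

def beq (x y : Z2) : Bool := decide (x.a = y.a) && decide (x.b = y.b)

/-- decides `0 < a + b √2` (sufficient) -/
def pos (x : Z2) : Bool := nonneg x && !(beq x ⟨0, 0⟩)

noncomputable def val (x : Z2) : ℝ := x.a + x.b * √2

theorem val_mul (x y : Z2) : (mul x y).val = x.val * y.val := by
  unfold mul val
  have h : √2 * √2 = 2 := Real.mul_self_sqrt (by norm_num)
  push_cast
  linear_combination (-(x.b : ℝ) * y.b) * h

theorem val_sub (x y : Z2) : (sub x y).val = x.val - y.val := by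
  unfold sub val; push_cast; ring

theorem val_add (x y : Z2) : (add x y).val = x.val + y.val := by
  unfold add val; push_cast; ring

theorem val_nonneg {x : Z2} (h : nonneg x = true) : 0 ≤ x.val := by
  unfold nonneg at h
  unfold val
  have hs : 0 ≤ √2 := Real.sqrt_nonneg 2
  have h2 : √2 * √2 = 2 := Real.mul_self_sqrt (by norm_num)
  split_ifs at h with h1 h3 h3
  · have ha : (0 : ℝ) ≤ x.a := by exact_mod_cast h1
    have hb : (0 : ℝ) ≤ x.b := by exact_mod_cast h3
    positivity
  · have ha : (0 : ℝ) ≤ x.a := by exact_mod_cast h1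
    have hb : (x.b : ℝ) ≤ 0 := by exact_mod_cast (not_le.mp h3).le
    have hc : 2 * ((x.b : ℝ) * x.b) ≤ x.a * x.a := by
      have := of_decide_eq_true h
      exact_mod_cast this
    have hd : (-(x.b : ℝ) * √2) ^ 2 ≤ (x.a : ℝ) ^ 2 := by nlinarith
    have := le_trans (le_abs_self _) (abs_le_of_sq_le_sq hd ha)
    nlinarith
  · have ha : (x.a : ℝ) ≤ 0 := by exact_mod_cast (not_le.mp h1).le
    have hb : (0 : ℝ) ≤ x.b := by exact_mod_cast (not_le.mp h3).le
    have hc : ((x.a : ℝ) * x.a) ≤ 2 * (x.b * x.b) := by
      have := of_decide_eq_true h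
      exact_mod_cast this
    have hd : (-(x.a : ℝ)) ^ 2 ≤ ((x.b : ℝ) * √2) ^ 2 := by nlinarith
    have := le_trans (le_abs_self _) (abs_le_of_sq_le_sq hd (by positivity))
    nlinarith

theorem eq_of_beq {x y : Z2} (h : beq x y = true) : x = y := by
  unfold beq at h
  rw [Bool.and_eq_true] at h
  have h1 := of_decide_eq_true h.1
  have h2 := of_decide_eq_true h.2
  cases x; cases y; simp_all

theorem val_eq_zero {x : Z2} (h : x.val = 0) : x.a = 0 ∧ x.b = 0 := by
  unfold val at h
  by_cases hb : x.b = 0
  · rw [hb] at h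
    refine ⟨?_, hb⟩
    have : (x.a : ℝ) = 0 := by simpa using h
    exact_mod_cast this
  · exfalso
    have hb' : (x.b : ℝ) ≠ 0 := by exact_mod_cast hb
    have : √2 = ((-x.a / x.b : ℚ) : ℝ) := by
      push_cast
      field_simp
      linarith
    exact (irrational_sqrt_two.ne_rat _) this

theorem val_pos {x : Z2} (h : pos x = true) : 0 < x.val := by
  unfold pos at h
  rw [Bool.and_eq_true] at h
  have h1 := val_nonneg h.1
  rcases h1.eq_or_lt with h0 | h0
  · exfalso
    obtain ⟨ha, hb⟩ := val_eq_zero h0.symm
    have : beq x ⟨0, 0⟩ = true := by simp [beq, ha, hb]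
    rw [this] at h
    simp at h
  · exact h0

end Z2

/-- A point with coordinates in `ℤ[√2]`. -/
structure Pt where
  x : Z2
  y : Z2

namespace Pt

noncomputable def val (p : Pt) : ℂ := ⟨p.x.val, p.y.val⟩

def sub (p q : Pt) : Pt := ⟨p.x.sub q.x, p.y.sub q.y⟩

def crs (u v : Pt) : Z2 := (u.x.mul v.y).sub (u.y.mul v.x)

theorem val_sub (p q : Pt) : (sub p q).val = p.val - q.val := by
  apply Complex.ext <;> simp [sub, val, Z2.val_sub]

theorem val_crs (u v : Pt) : (crs u v).val = cross u.val v.val := by
  simp [crs, val, cross, Z2.val_sub, Z2.val_mul]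

end Pt

/-- A triangle. -/
structure Tr where
  p : Pt
  q : Pt
  r : Pt

namespace Tr

noncomputable def set (t : Tr) : Set ℂ := tri t.p.val t.q.val t.r.val

/-- twice the area -/
def area (t : Tr) : Z2 := Pt.crs (t.q.sub t.p) (t.r.sub t.p)

noncomputable def ar (t : Tr) : ℝ := cross (t.q.val - t.p.val) (t.r.val - t.p.val)

theorem val_area (t : Tr) : t.area.val = t.ar := by
  simp [area, ar, Pt.val_crs, Pt.val_sub]

/-- `z` is on the left of the oriented line `u v`. -/
def left (u v z : Pt) : Bool := Z2.nonneg (Pt.crs (v.sub u) (z.sub u))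

def right (u v z : Pt) : Bool := Z2.nonneg (Pt.crs (z.sub u) (v.sub u))

theorem left_spec {u v z : Pt} (h : left u v z = true) :
    0 ≤ cross (v.val - u.val) (z.val - u.val) := by
  have := Z2.val_nonneg h
  simpa [Pt.val_crs, Pt.val_sub] using this

theorem right_spec {u v z : Pt} (h : right u v z = true) :
    cross (v.val - u.val) (z.val - u.val) ≤ 0 := by
  have := Z2.val_nonneg h
  rw [Pt.val_crs, Pt.val_sub, Pt.val_sub] at this
  have h2 : cross (v.val - u.val) (z.val - u.val) = - cross (z.val - u.val) (v.val - u.val) := by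
    simp [cross]; ring
  rw [h2]; linarith

/-- vertex of `T` inside -/
def inside (T : Tr) (z : Pt) : Bool := left T.p T.q z && left T.q T.r z && left T.r T.p z

theorem inside_spec {T : Tr} (hT : 0 < T.ar) {z : Pt} (h : inside T z = true) :
    z.val ∈ T.set := by
  unfold inside at h
  rw [Bool.and_eq_true, Bool.and_eq_true] at h
  exact mem_tri_of_cross hT (left_spec h.1.1) (left_spec h.1.2) (left_spec h.2)

/-- all of `t` is on the right of the oriented line `u v` -/
def allRight (u v : Pt) (t : Tr) : Bool := right u v t.p && right u v t.q && right u v t.r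

/-- separated by an edge of `s` -/
def sepHalf (s t : Tr) : Bool :=
  allRight s.p s.q t || allRight s.q s.r t || allRight s.r s.p t

def sep (s t : Tr) : Bool := sepHalf s t || sepHalf t s

theorem cross_sub_eq (d z u : ℂ) : cross d (z - u) = cross d z - cross d u := by
  simp [cross]; ring

theorem allRight_spec {u v : Pt} {t : Tr} (h : allRight u v t = true) :
    ∀ z ∈ t.set, cross (v.val - u.val) z ≤ cross (v.val - u.val) u.val := by
  unfold allRight at h
  rw [Bool.and_eq_true, Bool.and_eq_true] at h
  have h1 := right_spec h.1.1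
  have h2 := right_spec h.1.2
  have h3 := right_spec h.2
  rw [cross_sub_eq] at h1 h2 h3
  intro z hz
  exact tri_subset (convex_cross_le _ _) (by simpa using h1) (by simpa using h2)
    (by simpa using h3) hz

theorem cross_cyc (a b c : ℂ) : cross (c - b) (a - b) = cross (b - a) (c - a) := by
  simp [cross]; ring

theorem sepHalf_spec {s t : Tr} (hs : 0 < s.ar) (h : sepHalf s t = true) :
    Disjoint (interior s.set) (interior t.set) := by
  have key : ∀ a b c : ℂ, 0 < cross (b - a) (c - a) → (∀ z ∈ t.set, cross (b - a) z ≤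
      cross (b - a) a) → Disjoint (interior (tri a b c)) (interior t.set) := by
    intro a b c hD ht
    have hd : b - a ≠ 0 := by
      intro h0; rw [h0] at hD; simp [cross] at hD
    refine (disjoint_interior_of_sep hd ht ?_).symm
    intro z hz
    refine tri_subset (convex_le_cross _ _) ?_ ?_ ?_ hz
    · simp
    · simp only [mem_ofPred_eq]
      apply le_of_eq
      simp [cross]; ring
    · simp only [mem_ofPred_eq]
      rw [cross_sub_eq] at hD
      linarith
  unfold sepHalf at h
  rw [Bool.or_eq_true, Bool.or_eq_true] at h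
  rcases h with (h | h) | h
  · exact key _ _ _ hs (allRight_spec h)
  · have h1 : s.set = tri s.q.val s.r.val s.p.val := by
      unfold set tri; congr 1; ext z; simp; tauto
    rw [h1]
    apply key _ _ _ _ (allRight_spec h)
    have : cross (s.r.val - s.q.val) (s.p.val - s.q.val) = s.ar := cross_cyc _ _ _
    rw [this]; exact hs
  · have h1 : s.set = tri s.r.val s.p.val s.q.val := by
      unfold set tri; congr 1; ext z; simp; tauto
    rw [h1]
    apply key _ _ _ _ (allRight_spec h)
    have : cross (s.p.val - s.r.val) (s.q.val - s.r.val) = s.ar := by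
      rw [cross_cyc, cross_cyc]; rfl
    rw [this]; exact hs

theorem sep_spec {s t : Tr} (hs : 0 < s.ar) (ht : 0 < t.ar) (h : sep s t = true) :
    Disjoint (interior s.set) (interior t.set) := by
  unfold sep at h
  rw [Bool.or_eq_true] at h
  rcases h with h | h
  · exact sepHalf_spec hs h
  · exact (sepHalf_spec ht h).symm

end Tr

/-- all triangles of the list are separated from `s` -/
def sepAll (s : Tr) : List Tr → Bool
  | [] => true
  | t :: l => Tr.sep s t && sepAll s l

def pairSep : List Tr → Bool
  | [] => true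
  | s :: l => sepAll s l && pairSep l

def sumArea : List Tr → Z2
  | [] => ⟨0, 0⟩
  | t :: l => t.area.add (sumArea l)

/-- Union of a list of triangles. -/
noncomputable def gset : List Tr → Set ℂ
  | [] => ∅
  | t :: l => t.set ∪ gset l

theorem mem_gset {l : List Tr} {z : ℂ} : z ∈ gset l ↔ ∃ t ∈ l, z ∈ t.set := by
  induction l with
  | nil => simp [gset]
  | cons t l ih => simp [gset, ih]

theorem isClosed_gset : ∀ l : List Tr, IsClosed (gset l)
  | [] => isClosed_empty
  | _ :: l => (isCompact_tri _ _ _).isClosed.union (isClosed_gset l)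

/-- Intersection of the half planes of the edges of a polygon, from the vertex `u` on, with
last edge going back to `f`. -/
def hp (f : Pt) : Pt → List Pt → Set ℂ
  | u, [] => {z | 0 ≤ cross (f.val - u.val) (z - u.val)}
  | u, w :: l => {z | 0 ≤ cross (w.val - u.val) (z - u.val)} ∩ hp f w l

def hin (f z : Pt) : Pt → List Pt → Bool
  | u, [] => Tr.left u f z
  | u, w :: l => Tr.left u w z && hin f z w l

/-- The fan triangulation of a polygon. -/
def fan (f : Pt) : Pt → List Pt → List Tr
  | _, [] => []
  | u, w :: l => ⟨f, u, w⟩ :: fan f w l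

def allPos : List Tr → Bool
  | [] => true
  | t :: l => Z2.pos t.area && allPos l

def allIn (f u : Pt) (l : List Pt) : List Pt → Bool
  | [] => true
  | z :: L => (Tr.left f u z && hin f z u l) && allIn f u l L

theorem hin_spec {f z : Pt} : ∀ {u : Pt} {l : List Pt}, hin f z u l = true → z.val ∈ hp f u l
  | u, [], h => Tr.left_spec h
  | u, w :: l, h => by
    unfold hin at h
    rw [Bool.and_eq_true] at h
    exact ⟨Tr.left_spec h.1, hin_spec h.2⟩

theorem convex_halfplane (d p : ℂ) : Convex ℝ {z : ℂ | 0 ≤ cross d (z - p)} := by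
  have : {z : ℂ | 0 ≤ cross d (z - p)} = {z : ℂ | cross d p ≤ cross d z} := by
    ext z
    simp only [mem_ofPred_eq]
    rw [Tr.cross_sub_eq]
    constructor <;> intro h <;> linarith
  rw [this]
  exact convex_le_cross _ _

theorem convex_hp (f : Pt) : ∀ (u : Pt) (l : List Pt), Convex ℝ (hp f u l)
  | _, [] => convex_halfplane _ _
  | _, w :: l => (convex_halfplane _ _).inter (convex_hp f w l)

theorem cross_rev (a b z : ℂ) : cross (a - b) (z - b) = -cross (b - a) (z - a) := by
  simp [cross]; ring

theorem hp_subset_fan {f : Pt} : ∀ {l : List Pt} {u w : Pt},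
    allPos (fan f u (w :: l)) = true → ∀ z : ℂ, 0 ≤ cross (u.val - f.val) (z - f.val) →
    z ∈ hp f u (w :: l) → z ∈ gset (fan f u (w :: l))
  | [], u, w, hpos, z, h0, hz => by
    unfold fan allPos at hpos
    rw [Bool.and_eq_true] at hpos
    have hT : 0 < (⟨f, u, w⟩ : Tr).ar := by rw [← Tr.val_area]; exact Z2.val_pos hpos.1
    have h1 : 0 ≤ cross (w.val - u.val) (z - u.val) := hz.1
    have h2 : 0 ≤ cross (f.val - w.val) (z - w.val) := hz.2
    left
    exact mem_tri_of_cross hT h0 h1 h2
  | v :: l, u, w, hpos, z, h0, hz => by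
    unfold fan allPos at hpos
    rw [Bool.and_eq_true] at hpos
    have hT : 0 < (⟨f, u, w⟩ : Tr).ar := by rw [← Tr.val_area]; exact Z2.val_pos hpos.1
    have h1 : 0 ≤ cross (w.val - u.val) (z - u.val) := hz.1
    have h2 : z ∈ hp f w (v :: l) := hz.2
    by_cases h3 : 0 ≤ cross (w.val - f.val) (z - f.val)
    · right
      exact hp_subset_fan hpos.2 z h3 h2
    · left
      refine mem_tri_of_cross hT h0 h1 ?_
      have := cross_rev f.val w.val z
      simp only at this ⊢
      rw [this]
      linarith

theorem allPos_spec : ∀ {l : List Tr}, allPos l = true → ∀ t ∈ l, 0 < t.ar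
  | [], _, t, ht => by simp at ht
  | s :: l, h, t, ht => by
    unfold allPos at h
    rw [Bool.and_eq_true] at h
    rcases List.mem_cons.mp ht with rfl | ht
    · rw [← Tr.val_area]; exact Z2.val_pos h.1
    · exact allPos_spec h.2 t ht

theorem sumArea_nonneg : ∀ {l : List Tr}, allPos l = true → 0 ≤ (sumArea l).val
  | [], _ => by simp [sumArea, Z2.val]
  | t :: l, h => by
    have h1 := allPos_spec h t (by simp)
    unfold allPos at h
    rw [Bool.and_eq_true] at h
    have h2 := sumArea_nonneg h.2
    unfold sumArea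
    rw [Z2.val_add, Tr.val_area]
    linarith

theorem volume_gset_le : ∀ {l : List Tr}, allPos l = true →
    volume (gset l) ≤ ENNReal.ofReal (sumArea l).val * kap
  | [], _ => by simp [gset]
  | t :: l, h => by
    have h1 := allPos_spec h t (by simp)
    have h' := h
    unfold allPos at h
    rw [Bool.and_eq_true] at h
    have h2 := volume_gset_le h.2
    have h3 := sumArea_nonneg h.2
    unfold gset sumArea
    rw [Z2.val_add, Tr.val_area, ENNReal.ofReal_add h1.le h3, add_mul]
    refine (measure_union_le _ _).trans (add_le_add ?_ h2)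
    change volume (tri _ _ _) ≤ _
    rw [volume_tri]
    unfold Tr.ar at h1 ⊢
    rw [abs_of_pos h1]

/-- Regions: triangles, convex quadrilaterals and convex polygons. -/
inductive Reg where
  | T (t : Tr)
  | Q (a b c d : Pt)
  | P (f u : Pt) (l : List Pt)

namespace Reg

noncomputable def set : Reg → Set ℂ
  | T t => t.set
  | Q a b c d => quad a.val b.val c.val d.val
  | P f u l => {z | 0 ≤ cross (u.val - f.val) (z - f.val)} ∩ hp f u l

def area : Reg → Z2
  | T t => t.area
  | Q a b c d => (Tr.area ⟨a, b, c⟩).add (Tr.area ⟨a, c, d⟩)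
  | P f u l => sumArea (fan f u l)

def ok : Reg → Bool
  | T t => Z2.pos t.area
  | Q a b c d => (Z2.pos (Tr.area ⟨a, b, c⟩) && Z2.pos (Tr.area ⟨a, c, d⟩)) &&
      (Tr.left a b d && Tr.left c d b)
  | P f u l => match l with
    | [] => false
    | w :: l' => allPos (fan f u (w :: l')) && allIn f u (w :: l') (f :: u :: w :: l')

def inside : Reg → Pt → Bool
  | T t, z => t.inside z
  | Q a b c d, z => (Tr.left a b z && Tr.left b c z) && (Tr.left c d z && Tr.left d a z)
  | P f u l, z => Tr.left f u z && hin f z u l

end Reg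

def goodAll (R : Reg) : List Tr → Bool
  | [] => true
  | t :: l => ((Z2.pos t.area && R.inside t.p) && (R.inside t.q && R.inside t.r)) && goodAll R l

/-- The checker. -/
def check (R : Reg) (L : List Tr) : Bool :=
  (R.ok && goodAll R L) && (pairSep L && Z2.beq (sumArea L) R.area)

theorem sepAll_spec {s : Tr} : ∀ {l : List Tr}, sepAll s l = true → ∀ t ∈ l, Tr.sep s t = true
  | [], _, t, ht => by simp at ht
  | u :: l, h, t, ht => by
    unfold sepAll at h
    rw [Bool.and_eq_true] at h
    rcases List.mem_cons.mp ht with rfl | ht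
    · exact h.1
    · exact sepAll_spec h.2 t ht

theorem pairSep_spec : ∀ {l : List Tr}, pairSep l = true →
    l.Pairwise (fun s t => Tr.sep s t = true)
  | [], _ => List.Pairwise.nil
  | s :: l, h => by
    unfold pairSep at h
    rw [Bool.and_eq_true] at h
    exact List.Pairwise.cons (fun t ht => sepAll_spec h.1 t ht) (pairSep_spec h.2)

theorem goodAll_spec {R : Reg} : ∀ {l : List Tr}, goodAll R l = true → ∀ t ∈ l,
    ((Z2.pos t.area && R.inside t.p) && (R.inside t.q && R.inside t.r)) = true
  | [], _, t, ht => by simp at ht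
  | u :: l, h, t, ht => by
    unfold goodAll at h
    rw [Bool.and_eq_true] at h
    rcases List.mem_cons.mp ht with rfl | ht
    · exact h.1
    · exact goodAll_spec h.2 t ht

theorem sumArea_val : ∀ l : List Tr, (sumArea l).val = (l.map Tr.ar).sum
  | [] => by simp [sumArea, Z2.val]
  | t :: l => by
    simp [sumArea, Z2.val_add, Tr.val_area, sumArea_val l]

namespace Reg

theorem pos_area {t : Tr} (h : Z2.pos t.area = true) : 0 < t.ar := by
  rw [← Tr.val_area]; exact Z2.val_pos h

theorem pos_cross {a b c : Pt} (h : Z2.pos (Tr.area ⟨a, b, c⟩) = true) :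
    0 < cross (b.val - a.val) (c.val - a.val) := by
  have h1 := pos_area h
  unfold Tr.ar at h1
  exact h1

theorem convex {R : Reg} (h : R.ok = true) : Convex ℝ R.set := by
  cases R with
  | T t => exact convex_tri _ _ _
  | Q a b c d =>
    unfold ok at h
    simp only [Bool.and_eq_true] at h
    have h1 := pos_cross h.1.1
    have h2 := pos_cross h.1.2
    have h3 := Tr.left_spec h.2.1
    have h4 := Tr.left_spec h.2.2
    exact quad_convex h1 h2 h3 h4
  | P f u l => exact (convex_halfplane _ _).inter (convex_hp f u l)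

theorem allIn_spec {f u : Pt} {l : List Pt} : ∀ {L : List Pt}, allIn f u l L = true →
    ∀ z ∈ L, z.val ∈ (P f u l).set
  | [], _, z, hz => by simp at hz
  | w :: L, h, z, hz => by
    unfold allIn at h
    simp only [Bool.and_eq_true] at h
    rcases List.mem_cons.mp hz with rfl | hz
    · exact ⟨Tr.left_spec h.1.1, hin_spec h.1.2⟩
    · exact allIn_spec h.2 z hz

theorem interior_nonempty {R : Reg} (h : R.ok = true) : (interior R.set).Nonempty := by
  cases R with
  | T t => exact interior_tri_nonempty (pos_area h)
  | Q a b c d =>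
    unfold ok at h
    simp only [Bool.and_eq_true] at h
    exact (interior_tri_nonempty (pos_area h.1.1)).mono (interior_mono subset_union_left)
  | P f u l =>
    cases l with
    | nil => exact absurd h (by simp [ok])
    | cons w l =>
      unfold ok at h
      simp only [Bool.and_eq_true] at h
      have h1 := allPos_spec h.1 ⟨f, u, w⟩ (by simp [fan])
      have hin := allIn_spec h.2
      refine (interior_tri_nonempty h1).mono (interior_mono ?_)
      exact tri_subset ((convex_halfplane _ _).inter (convex_hp f u _)) (hin f (by simp))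
        (hin u (by simp)) (hin w (by simp))

theorem volume_le {R : Reg} (h : R.ok = true) :
    volume R.set ≤ ENNReal.ofReal R.area.val * kap := by
  cases R with
  | T t =>
    have h1 := pos_area h
    change volume (tri _ _ _) ≤ ENNReal.ofReal t.area.val * kap
    rw [volume_tri, Tr.val_area]
    unfold Tr.ar at h1 ⊢
    rw [abs_of_pos h1]
  | Q a b c d =>
    unfold ok at h
    simp only [Bool.and_eq_true] at h
    have h1 := pos_cross h.1.1
    have h2 := pos_cross h.1.2
    have := volume_quad_le h1 h2
    unfold area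
    rw [Z2.val_add, Tr.val_area, Tr.val_area]
    unfold Tr.ar
    exact this
  | P f u l =>
    cases l with
    | nil => exact absurd h (by simp [ok])
    | cons w l =>
      unfold ok at h
      simp only [Bool.and_eq_true] at h
      refine (measure_mono ?_).trans (volume_gset_le h.1)
      intro z hz
      exact hp_subset_fan h.1 z hz.1 hz.2

theorem inside_spec {R : Reg} (h : R.ok = true) {z : Pt} (hz : R.inside z = true) :
    z.val ∈ R.set := by
  cases R with
  | T t => exact Tr.inside_spec (pos_area h) hz
  | Q a b c d =>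
    unfold ok at h
    simp only [Bool.and_eq_true] at h
    unfold inside at hz
    simp only [Bool.and_eq_true] at hz
    change z.val ∈ quad a.val b.val c.val d.val
    have h1 := pos_cross h.1.1
    have h2 := pos_cross h.1.2
    have h3 := Tr.left_spec h.2.1
    have h4 := Tr.left_spec h.2.2
    rw [quad_eq h1 h2 h3 h4]
    exact ⟨Tr.left_spec hz.1.1, Tr.left_spec hz.1.2, Tr.left_spec hz.2.1, Tr.left_spec hz.2.2⟩
  | P f u l =>
    unfold inside at hz
    simp only [Bool.and_eq_true] at hz
    exact ⟨Tr.left_spec hz.1, hin_spec hz.2⟩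

end Reg

/-- What the checker proves. -/
structure Dissects (R : Reg) (L : List Tr) : Prop where
  disj : L.Pairwise fun s t => Disjoint (interior s.set) (interior t.set)
  cover : gset L = R.set
  pos : ∀ t ∈ L, 0 < t.ar

theorem dissects_of_check {R : Reg} {L : List Tr} (h : check R L = true) : Dissects R L := by
  unfold check at h
  simp only [Bool.and_eq_true] at h
  obtain ⟨⟨h1, h2⟩, h3, h4⟩ := h
  have hg := goodAll_spec h2
  have hpos : ∀ t ∈ L, 0 < t.ar := by
    intro t ht
    have := hg t ht
    simp only [Bool.and_eq_true] at this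
    exact Reg.pos_area this.1.1
  have hdisj : L.Pairwise fun s t => Disjoint (interior s.set) (interior t.set) := by
    have := pairSep_spec h3
    apply this.imp_of_mem
    intro s t hs ht hst
    exact Tr.sep_spec (hpos s hs) (hpos t ht) hst
  refine ⟨hdisj, ?_, hpos⟩
  have hU : gset L = ⋃ i : Fin L.length, (L.get i).set := by
    ext z
    rw [mem_gset, mem_iUnion]
    constructor
    · rintro ⟨t, ht, hz⟩
      obtain ⟨i, hi⟩ := List.get_of_mem ht
      exact ⟨i, by rw [hi]; exact hz⟩
    · rintro ⟨i, hz⟩
      exact ⟨_, List.get_mem L i, hz⟩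
  rw [hU]
  refine iUnion_eq_of_volume (Reg.convex h1) (Reg.interior_nonempty h1) (Reg.volume_le h1)
    (fun i => hpos _ (List.get_mem _ _)) ?_ ?_ ?_
  · intro i
    have := hg _ (List.get_mem L i)
    simp only [Bool.and_eq_true] at this
    exact tri_subset (Reg.convex h1) (Reg.inside_spec h1 this.1.2) (Reg.inside_spec h1 this.2.1)
      (Reg.inside_spec h1 this.2.2)
  · intro i j hij
    rcases lt_or_gt_of_ne hij with h | h
    · exact (List.pairwise_iff_get.mp hdisj i j h)
    · exact (List.pairwise_iff_get.mp hdisj j i h).symm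
  · have h5 := congrArg Z2.val (Z2.eq_of_beq h4)
    rw [sumArea_val] at h5
    change ∑ i : Fin L.length, (L.get i).ar = R.area.val
    rw [← h5]
    rw [← List.sum_ofFn]
    congr 1
    conv_rhs => rw [← List.ofFn_get L]
    rw [List.map_ofFn]
    rfl

end Pool.Agent.Helper37.Dis
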