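import Pool.Agent.Helper37.Dis.Lib

/-!
From a tiling of `T0` by mirrored copies to the statement about dissections of a triangle into
oppositely oriented similar copies.
-/

open MeasureTheory Set
open scoped ComplexConjugate

namespace Pool.Agent.Helper37.Dis

theorem T0_vals : T0.p.val = 0 ∧ T0.q.val = ((2 + √2 : ℝ) : ℂ) ∧
    T0.r.val = ⟨1 + √2, 1⟩ := by
  refine ⟨?_, ?_, ?_⟩ <;> apply Complex.ext <;> simp [T0, Pt.val, Z2.val]

/-- The conclusion we are after, for the triangle `A B C`. -/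
def Conc (A B C : ℂ) : Prop :=
  AffineIndependent ℝ ![A, B, C] ∧
    (dist A B ≠ dist B C ∧ dist B C ≠ dist C A ∧ dist C A ≠ dist A B) ∧
    (EuclideanGeometry.angle A B C ≠ Real.pi / 2 ∧ EuclideanGeometry.angle B C A ≠ Real.pi / 2 ∧
      EuclideanGeometry.angle C A B ≠ Real.pi / 2) ∧
    ∃ (n : ℕ) (p q : Fin n → ℂ), (∀ i, p i ≠ 0) ∧
      (∀ i j, i ≠ j →
        Disjoint (interior ((fun z => p i * conj z + q i) '' convexHull ℝ {A, B, C}))
          (interior ((fun z => p j * conj z + q j) '' convexHull ℝ {A, B, C}))) ∧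
      ⋃ i, (fun z => p i * conj z + q i) '' convexHull ℝ {A, B, C} = convexHull ℝ {A, B, C}

theorem T0_indep : AffineIndependent ℝ ![T0.p.val, T0.q.val, T0.r.val] := by
  obtain ⟨h1, h2, h3⟩ := T0_vals
  rw [affineIndependent_iff_not_collinear_set]
  intro hc
  rw [collinear_iff_of_mem (p₀ := T0.p.val) (by simp)] at hc
  obtain ⟨v, hv⟩ := hc
  obtain ⟨r, hr⟩ := hv T0.q.val (by simp)
  obtain ⟨s, hs⟩ := hv T0.r.val (by simp)
  rw [h1, h2] at hr
  rw [h1, h3] at hs
  have e1 := congrArg Complex.re hr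
  have e2 := congrArg Complex.im hr
  have e3 := congrArg Complex.im hs
  simp at e1 e2 e3
  have hs2 : 0 < √2 := by positivity
  rcases e2 with h | h
  · rw [h] at e1
    simp at e1
    linarith
  · rw [h] at e3
    simp at e3

theorem conc_of_Tl (h : Tl T0.set) : Conc T0.p.val T0.q.val T0.r.val := by
  refine ⟨T0_indep, ?_, ?_, ?_⟩
  · obtain ⟨h1, h2, h3⟩ := T0_vals
    rw [h1, h2, h3]
    have hs : √2 * √2 = 2 := Real.mul_self_sqrt (by norm_num)
    have hs0 : 0 < √2 := by positivity
    have d1 : dist (0 : ℂ) ((2 + √2 : ℝ) : ℂ) ^ 2 = 6 + 4 * √2 := by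
      rw [Complex.dist_eq, ← Complex.normSq_eq_norm_sq, Complex.normSq_apply]
      simp
      nlinarith
    have d2 : dist ((2 + √2 : ℝ) : ℂ) (⟨1 + √2, 1⟩ : ℂ) ^ 2 = 2 := by
      rw [Complex.dist_eq, ← Complex.normSq_eq_norm_sq, Complex.normSq_apply]
      simp
      nlinarith
    have d3 : dist (⟨1 + √2, 1⟩ : ℂ) (0 : ℂ) ^ 2 = 4 + 2 * √2 := by
      rw [Complex.dist_eq, ← Complex.normSq_eq_norm_sq, Complex.normSq_apply]
      simp
      nlinarith
    refine ⟨?_, ?_, ?_⟩ <;> intro he
    · rw [he, d2] at d1; linarith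
    · rw [he, d3] at d2; linarith
    · rw [he, d1] at d3; linarith
  · obtain ⟨h1, h2, h3⟩ := T0_vals
    rw [h1, h2, h3]
    have hs : √2 * √2 = 2 := Real.mul_self_sqrt (by norm_num)
    have hs0 : 0 < √2 := by positivity
    refine ⟨?_, ?_, ?_⟩
    all_goals
      unfold EuclideanGeometry.angle
      rw [Ne, ← InnerProductGeometry.inner_eq_zero_iff_angle_eq_pi_div_two]
      simp only [Complex.inner, vsub_eq_sub]
      simp
      first
        | (intro he; nlinarith)
        | (constructor <;> intro he <;> nlinarith)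
  · obtain ⟨ι, F, p, q, h0, h1, h2⟩ := h
    let e := (Fintype.equivFin ι).symm
    refine ⟨Fintype.card ι, fun i => p (e i), fun i => q (e i), fun i => h0 _, ?_, ?_⟩
    · intro i j hij
      exact h1 (fun he => hij (e.injective he))
    · have : (⋃ i, opp (p (e i)) (q (e i)) '' T0.set) = ⋃ i, opp (p i) (q i) '' T0.set :=
        e.surjective.iUnion_comp (fun i => opp (p i) (q i) '' T0.set)
      exact this.trans h2

/-- Scaled and rotated version of `T0`. -/
theorem Tl_T0 {t : Tr} (h : Tl t.set) (hab : t.q.beq t.p = false)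
    (hc : corrAll t.p t.q T0.p T0.q [t] [T0] = true) : Tl T0.set := by
  rw [← gset_singleton]
  apply Tl_of_corr hab (by decide) hc
  rwa [gset_singleton]

end Pool.Agent.Helper37.Dis
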