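import Pool.Agent.Helper37.Dis.Tile

/-!
Tilings by mirrored copies of `T0` and by similar copies of regions already known to be tileable.
-/

open MeasureTheory Set
open scoped ComplexConjugate

namespace Pool.Agent.Helper37.Dis

def Tr.swap (t : Tr) : Tr := ⟨t.p, t.r, t.q⟩

theorem Tr.swap_set (t : Tr) : t.swap.set = t.set := by
  unfold Tr.set Tr.swap tri
  congr 1
  ext z
  simp only [mem_insert_iff, mem_singleton_iff]
  tauto

theorem Tr.swap_ar (t : Tr) : t.swap.ar = -t.ar := by
  unfold Tr.ar Tr.swap cross
  ring

/-- A piece of a dissection: a mirrored copy of `T0`, or a copy of a library region. -/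
inductive Pc where
  | M (t : Tr)
  | L (k : ℕ) (a b : Pt) (l : List Tr)

def Pc.tris : Pc → List Tr
  | M t => [t]
  | L _ _ _ l => l

structure Entry where
  a : Pt
  b : Pt
  l : List Tr

def Pc.ok (lib : List Entry) : Pc → Bool
  | M t => mirr t.swap
  | L k a b l => match lib[k]? with
    | some e => (!(e.b.beq e.a) && !(b.beq a)) && corrAll e.a e.b a b e.l l
    | none => false

def okAll (lib : List Entry) : List Pc → Bool
  | [] => true
  | x :: l => x.ok lib && okAll lib l

theorem okAll_spec {lib : List Entry} : ∀ {l : List Pc}, okAll lib l = true →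
    ∀ x ∈ l, x.ok lib = true
  | [], _, x, hx => by simp at hx
  | y :: l, h, x, hx => by
    unfold okAll at h
    rw [Bool.and_eq_true] at h
    rcases List.mem_cons.mp hx with rfl | hx
    · exact h.1
    · exact okAll_spec h.2 x hx

def flat : List Pc → List Tr
  | [] => []
  | x :: l => x.tris ++ flat l

theorem flat_eq : ∀ l : List Pc, flat l = (l.map Pc.tris).flatten
  | [] => rfl
  | x :: l => by simp [flat, flat_eq l]

theorem gset_singleton (t : Tr) : gset [t] = t.set := by
  simp [gset]

theorem Pc.tl {lib : List Entry} (hlib : ∀ e ∈ lib, Tl (gset e.l)) {x : Pc}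
    (h : x.ok lib = true) (hpos : ∀ t ∈ x.tris, 0 < t.ar) : Tl (gset x.tris) := by
  cases x with
  | M t =>
    change Tl (gset [t])
    rw [gset_singleton, ← Tr.swap_set]
    apply Tl_of_mirr h
    rw [Tr.swap_ar]
    have := hpos t (by simp [Pc.tris])
    exact neg_ne_zero.mpr this.ne'
  | L k a b l =>
    change Tl (gset l)
    change (match lib[k]? with
      | some e => (!(e.b.beq e.a) && !(b.beq a)) && corrAll e.a e.b a b e.l l
      | none => false) = true at h
    cases hk : lib[k]? with
    | none => rw [hk] at h; exact absurd h (by simp)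
    | some e =>
      rw [hk] at h
      simp only [Bool.and_eq_true, Bool.not_eq_true'] at h
      exact Tl_of_corr h.1.1 h.1.2 h.2 (hlib e (List.mem_of_getElem? hk))

/-- Main checker with a library. -/
theorem Tl_of_pieces {lib : List Entry} (hlib : ∀ e ∈ lib, Tl (gset e.l)) {R : Reg}
    {P : List Pc} (h : check R (flat P) = true) (hok : okAll lib P = true) : Tl R.set := by
  have hd := dissects_of_check h
  rw [flat_eq] at h
  apply Tl_of_groups h
  intro g hg
  obtain ⟨x, hx, rfl⟩ := List.mem_map.mp hg
  apply Pc.tl hlib (okAll_spec hok x hx)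
  intro t ht
  apply hd.pos
  rw [flat_eq]
  exact List.mem_flatten.mpr ⟨_, hg, ht⟩

/-- Without a library. -/
theorem Tl_of_mirrors {R : Reg} {P : List Pc} (h : check R (flat P) = true)
    (hok : okAll [] P = true) : Tl R.set :=
  Tl_of_pieces (by simp) h hok

theorem gset_quad (a b c d : Pt) :
    gset [⟨a, b, c⟩, ⟨a, c, d⟩] = (Reg.Q a b c d).set := by
  simp [gset, Reg.set, quad, Tr.set]

end Pool.Agent.Helper37.Dis
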