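import Pool.Agent.Helper37.Dis.Lib

/-!
Parallelograms tileable by mirrored copies of `T0`, and the checker for dissections into
mirrored copies, copies of library regions and parallelograms.
-/

open MeasureTheory Set
open scoped ComplexConjugate

namespace Pool.Agent.Helper37.Dis

theorem Tl_union {A B : Set ℂ} (hA : Tl A) (hB : Tl B)
    (hd : Disjoint (interior A) (interior B)) : Tl (A ∪ B) := by
  have : (A ∪ B) = ⋃ b : Bool, cond b A B := by rw [union_eq_iUnion]
  rw [this]
  apply Tl_iUnion
  · intro b; cases b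
    · exact hB
    · exact hA
  · intro b c hbc
    cases b <;> cases c
    · exact absurd rfl hbc
    · exact hd.symm
    · exact hd
    · exact absurd rfl hbc

/-- The parallelogram with sides `1` and `τ`. -/
def pgram (τ : ℂ) : Set ℂ :=
  {z | ∃ s t : ℝ, 0 ≤ s ∧ s ≤ 1 ∧ 0 ≤ t ∧ t ≤ 1 ∧ z = s + t * τ}

/-- The parallelogram with sides `1` and `τ` can be tiled. -/
def PT (τ : ℂ) : Prop := 0 < τ.im ∧ Tl (pgram τ)

theorem PT_add {τ₁ τ₂ : ℂ} (h1 : PT τ₁) (h2 : PT τ₂) {c : ℝ} (hc : 0 < c)
    (h : τ₂ = c * τ₁) : PT (τ₁ + τ₂) := by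
  refine ⟨by rw [Complex.add_im]; exact add_pos h1.1 h2.1, ?_⟩
  have hU : pgram (τ₁ + τ₂) = pgram τ₁ ∪ (fun z => 1 * z + τ₁) '' pgram τ₂ := by
    ext z
    constructor
    · rintro ⟨s, t, hs0, hs1, ht0, ht1, rfl⟩
      by_cases hle : t * (1 + c) ≤ 1
      · left
        refine ⟨s, t * (1 + c), hs0, hs1, by positivity, hle, ?_⟩
        rw [h]; push_cast; ring
      · right
        rw [not_le] at hle
        refine ⟨s + ((t * (1 + c) - 1) / c : ℝ) * τ₂, ⟨s, (t * (1 + c) - 1) / c, hs0, hs1, ?_, ?_,
          rfl⟩, ?_⟩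
        · exact div_nonneg (by linarith) hc.le
        · rw [div_le_one hc]; nlinarith
        · have hc' : (c : ℂ) ≠ 0 := by exact_mod_cast hc.ne'
          simp only [h]
          push_cast
          field_simp
          ring
    · rintro (⟨s, t, hs0, hs1, ht0, ht1, rfl⟩ | ⟨w, ⟨s, t, hs0, hs1, ht0, ht1, rfl⟩, rfl⟩)
      · have h1c : 0 < 1 + c := by linarith
        refine ⟨s, t / (1 + c), hs0, hs1, by positivity, ?_, ?_⟩
        · rw [div_le_one h1c]; linarith
        · have hc' : (1 + c : ℂ) ≠ 0 := by exact_mod_cast h1c.ne'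
          rw [h]
          push_cast
          field_simp
      · have h1c : 0 < 1 + c := by linarith
        refine ⟨s, (1 + c * t) / (1 + c), hs0, hs1, by positivity, ?_, ?_⟩
        · rw [div_le_one h1c]; nlinarith
        · have hc' : (1 + c : ℂ) ≠ 0 := by exact_mod_cast h1c.ne'
          simp only [h]
          push_cast
          field_simp
          ring
  rw [hU]
  refine Tl_union h1.2 (Tl_image h2.2 one_ne_zero τ₁) ?_
  refine disjoint_interior_of_sep (d := 1) one_ne_zero (t := τ₁.im) ?_ ?_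
  · rintro z ⟨s, t, hs0, hs1, ht0, ht1, rfl⟩
    simp only [cross, Complex.one_re, Complex.one_im, Complex.add_im, Complex.mul_im,
      Complex.ofReal_re, Complex.ofReal_im]
    have := h1.1
    nlinarith
  · rintro z ⟨w, ⟨s, t, hs0, hs1, ht0, ht1, rfl⟩, rfl⟩
    simp only [cross, Complex.one_re, Complex.one_im, Complex.add_im, Complex.mul_im,
      Complex.ofReal_re, Complex.ofReal_im]
    have := h2.1
    have h3 := mul_nonneg ht0 this.le
    linarith

theorem PT_rot {τ : ℂ} (h : PT τ) : PT (-1 / τ) := by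
  have h0 : τ ≠ 0 := by
    intro h0; have := h.1; rw [h0] at this; simp at this
  constructor
  · rw [Complex.div_im]
    have hn : 0 < Complex.normSq τ := Complex.normSq_pos.mpr h0
    have := h.1
    simp only [Complex.neg_im, Complex.one_im, Complex.neg_re, Complex.one_re, neg_zero, zero_mul,
      zero_div]
    have h3 : 0 < τ.im / Complex.normSq τ := div_pos this hn
    have h4 : 0 - -1 * τ.im / Complex.normSq τ = τ.im / Complex.normSq τ := by ring
    rw [h4]; exact h3
  · have h1 := Tl_image h.2 (r := -1 / τ) (div_ne_zero (by norm_num) h0) 1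
    convert h1 using 1
    ext z
    constructor
    · rintro ⟨s, t, hs0, hs1, ht0, ht1, rfl⟩
      refine ⟨t + (1 - s : ℝ) * τ, ⟨t, 1 - s, ht0, ht1, by linarith, by linarith, rfl⟩, ?_⟩
      push_cast
      field_simp
      ring
    · rintro ⟨w, ⟨s, t, hs0, hs1, ht0, ht1, rfl⟩, rfl⟩
      refine ⟨1 - t, s, by linarith, by linarith, hs0, hs1, ?_⟩
      push_cast
      field_simp
      ring

theorem PT_nat {τ : ℂ} (h : PT τ) : ∀ n : ℕ, PT ((n + 1 : ℕ) * τ)
  | 0 => by simpa using h
  | n + 1 => by
    have h1 := PT_nat h n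
    have hn : (0 : ℝ) < ((n + 1 : ℕ) : ℝ) := by positivity
    have h2 := PT_add h1 h (c := 1 / ((n + 1 : ℕ) : ℝ)) (by positivity) (by
      have : ((n + 1 : ℕ) : ℂ) ≠ 0 := by exact_mod_cast hn.ne'
      push_cast at this ⊢
      field_simp)
    have h3 : ((n + 1 : ℕ) : ℂ) * τ + τ = ((n + 1 + 1 : ℕ) : ℂ) * τ := by
      push_cast; ring
    rwa [h3] at h2

theorem PT_mul {τ : ℂ} (h : PT τ) {n : ℕ} (hn : 0 < n) : PT (n * τ) := by
  obtain ⟨m, rfl⟩ := Nat.exists_eq_succ_of_ne_zero hn.ne'
  exact PT_nat h m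

theorem PT_div {τ : ℂ} (h : PT τ) {n : ℕ} (hn : 0 < n) : PT (τ / n) := by
  have h1 := PT_rot (PT_mul (PT_rot h) hn)
  have h0 : τ ≠ 0 := by
    intro h0; have := h.1; rw [h0] at this; simp at this
  have hn' : (n : ℂ) ≠ 0 := by exact_mod_cast hn.ne'
  have : -1 / ((n : ℂ) * (-1 / τ)) = τ / n := by
    field_simp
  rwa [this] at h1

/-- `τ / m` -/
structure Fct where
  t : Pt
  m : ℕ

def Fct.ok (f : Fct) : Prop := 0 < f.m ∧ PT (f.t.val / f.m)

def AllPT : List Fct → Prop
  | [] => True
  | f :: l => f.ok ∧ AllPT l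

def AllTl : List Entry → Prop
  | [] => True
  | e :: l => Tl (gset e.l) ∧ AllTl l

theorem AllPT_spec : ∀ {l : List Fct}, AllPT l → ∀ f ∈ l, f.ok
  | [], _, f, hf => by simp at hf
  | g :: l, h, f, hf => by
    rcases List.mem_cons.mp hf with rfl | hf
    · exact h.1
    · exact AllPT_spec h.2 f hf

theorem AllTl_spec : ∀ {l : List Entry}, AllTl l → ∀ e ∈ l, Tl (gset e.l)
  | [], _, f, hf => by simp at hf
  | g :: l, h, f, hf => by
    rcases List.mem_cons.mp hf with rfl | hf
    · exact h.1
    · exact AllTl_spec h.2 f hf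

def Pt.add (p q : Pt) : Pt := ⟨p.x.add q.x, p.y.add q.y⟩

theorem Pt.val_add (p q : Pt) : (p.add q).val = p.val + q.val := by
  apply Complex.ext <;> simp [Pt.add, Pt.val, Z2.val_add]

def Z2.nat (n : ℕ) (x : Z2) : Z2 := ⟨n * x.a, n * x.b⟩

theorem Z2.val_nat (n : ℕ) (x : Z2) : (Z2.nat n x).val = n * x.val := by
  unfold Z2.nat Z2.val; push_cast; ring

def Pt.nat (n : ℕ) (p : Pt) : Pt := ⟨Z2.nat n p.x, Z2.nat n p.y⟩

theorem Pt.val_nat (n : ℕ) (p : Pt) : (Pt.nat n p).val = n * p.val := by
  apply Complex.ext <;> simp [Pt.nat, Pt.val, Z2.val_nat]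

/-- `v` is a positive multiple of `u` -/
def Pt.par (u v : Pt) : Bool :=
  Z2.beq (Pt.crs u v) ⟨0, 0⟩ && Z2.pos ((u.x.mul v.x).add (u.y.mul v.y))

theorem Pt.par_spec {u v : Pt} (h : u.par v = true) : ∃ c : ℝ, 0 < c ∧ v.val = c * u.val := by
  unfold Pt.par at h
  rw [Bool.and_eq_true] at h
  have h1 := congrArg Z2.val (Z2.eq_of_beq h.1)
  have h2 := Z2.val_pos h.2
  rw [Z2.val_add, Z2.val_mul, Z2.val_mul] at h2
  simp only [Pt.crs, Z2.val_sub, Z2.val_mul] at h1
  have h0 : Z2.val ⟨0, 0⟩ = 0 := by simp [Z2.val]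
  rw [h0] at h1
  have hn : 0 < u.x.val ^ 2 + u.y.val ^ 2 := by
    by_contra hc
    have h5 := sq_nonneg u.x.val
    have h6 := sq_nonneg u.y.val
    have h7 : u.x.val ^ 2 = 0 := by linarith
    have h8 : u.y.val ^ 2 = 0 := by linarith
    rw [sq_eq_zero_iff] at h7 h8
    rw [h7, h8] at h2
    simp at h2
  refine ⟨(u.x.val * v.x.val + u.y.val * v.y.val) / (u.x.val ^ 2 + u.y.val ^ 2),
    div_pos h2 hn, ?_⟩
  apply Complex.ext
  · simp only [Pt.val, Complex.re_ofReal_mul]
    field_simp
    linear_combination (-u.y.val) * h1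
  · simp only [Pt.val, Complex.im_ofReal_mul]
    field_simp
    linear_combination (u.x.val) * h1

/-- certificate of a combination: all indices valid, multipliers positive, all parallel to `t0` -/
def okc (F : List Fct) (t0 : Pt) : List (ℕ × ℕ) → Bool
  | [] => true
  | (k, n) :: l => (match F[k]? with
    | some f => decide (0 < n) && t0.par f.t
    | none => false) && okc F t0 l

def sumc (F : List Fct) : List (ℕ × ℕ) → Pt
  | [] => ⟨⟨0, 0⟩, ⟨0, 0⟩⟩
  | (k, n) :: l => match F[k]? with
    | some f => (Pt.nat n f.t).add (sumc F l)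
    | none => sumc F l

theorem okc_spec {F : List Fct} (hF : AllPT F) {t0 : Pt} {D : ℕ} (hD : 0 < D) :
    ∀ {l : List (ℕ × ℕ)}, okc F t0 l = true →
    (l = [] → (sumc F l).val = 0) ∧ (l ≠ [] → PT ((sumc F l).val / D) ∧
      ∃ c : ℝ, 0 < c ∧ (sumc F l).val = c * t0.val)
  | [], _ => by
    refine ⟨fun _ => ?_, fun h => absurd rfl h⟩
    apply Complex.ext <;> simp [sumc, Pt.val, Z2.val]
  | (k, n) :: l, h => by
    refine ⟨fun h => by simp at h, fun _ => ?_⟩
    unfold okc at h
    unfold sumc
    cases hk : F[k]? with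
    | none => rw [hk] at h; simp at h
    | some f =>
      rw [hk] at h
      simp only [Bool.and_eq_true, decide_eq_true_eq] at h
      obtain ⟨⟨hn, hp⟩, hl⟩ := h
      obtain ⟨c, hc, hc'⟩ := Pt.par_spec hp
      have hf := AllPT_spec hF f (List.mem_of_getElem? hk)
      have hm : ((f.m : ℕ) : ℂ) ≠ 0 := by exact_mod_cast hf.1.ne'
      have hD' : ((D : ℕ) : ℂ) ≠ 0 := by exact_mod_cast hD.ne'
      have hn' : (0 : ℝ) < n := by exact_mod_cast hn
      have hDr : (0 : ℝ) < D := by exact_mod_cast hD
      have h1 : PT ((n : ℂ) * f.t.val / D) := by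
        have h2 := PT_div (PT_mul hf.2 (Nat.mul_pos hn hf.1)) hD
        have h3 : ((n * f.m : ℕ) : ℂ) * (f.t.val / f.m) / D = (n : ℂ) * f.t.val / D := by
          push_cast; field_simp
        rwa [h3] at h2
      have ih := okc_spec hF hD hl
      simp only
      rw [Pt.val_add, Pt.val_nat]
      by_cases hle : l = []
      · rw [ih.1 hle, add_zero]
        refine ⟨h1, n * c, by positivity, ?_⟩
        rw [hc']; push_cast; ring
      · obtain ⟨h2, c2, hc2, hc2'⟩ := ih.2 hle
        refine ⟨?_, n * c + c2, by positivity, ?_⟩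
        · rw [add_div]
          apply PT_add h1 h2 (c := c2 / (n * c)) (by positivity)
          rw [hc2', hc']
          have : (n : ℂ) ≠ 0 := by exact_mod_cast hn.ne'
          have : (c : ℂ) ≠ 0 := by exact_mod_cast hc.ne'
          push_cast
          field_simp
        · rw [hc', hc2']; push_cast; ring

theorem pgram_convex (τ : ℂ) : Convex ℝ (pgram τ) := by
  rintro z ⟨s, t, hs0, hs1, ht0, ht1, rfl⟩ w ⟨s', t', hs0', hs1', ht0', ht1', rfl⟩ a b ha hb hab
  refine ⟨a * s + b * s', a * t + b * t', by positivity, ?_, by positivity, ?_, ?_⟩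
  · nlinarith
  · nlinarith
  · simp only [Complex.real_smul]; push_cast; ring

theorem pgram_eq (τ : ℂ) : tri 0 1 (1 + τ) ∪ tri 0 (1 + τ) τ = pgram τ := by
  apply Subset.antisymm
  · apply union_subset
    · apply tri_subset (pgram_convex τ)
      · exact ⟨0, 0, by norm_num, by norm_num, by norm_num, by norm_num, by simp⟩
      · exact ⟨1, 0, by norm_num, by norm_num, by norm_num, by norm_num, by simp⟩
      · exact ⟨1, 1, by norm_num, by norm_num, by norm_num, by norm_num, by simp⟩
    · apply tri_subset (pgram_convex τ)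
      · exact ⟨0, 0, by norm_num, by norm_num, by norm_num, by norm_num, by simp⟩
      · exact ⟨1, 1, by norm_num, by norm_num, by norm_num, by norm_num, by simp⟩
      · exact ⟨0, 1, by norm_num, by norm_num, by norm_num, by norm_num, by simp⟩
  · rintro z ⟨s, t, hs0, hs1, ht0, ht1, rfl⟩
    rcases le_total t s with h | h
    · left
      have := bary_mem (a := 0) (b := 1) (c := 1 + τ) (x := 1 - s) (y := s - t) (z := t)
        (by linarith) (by linarith) ht0 (by ring)
      convert this using 1
      simp only [Complex.real_smul]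
      push_cast
      ring
    · right
      have := bary_mem (a := 0) (b := 1 + τ) (c := τ) (x := 1 - t) (y := s) (z := t - s)
        (by linarith) hs0 (by linarith) (by ring)
      convert this using 1
      simp only [Complex.real_smul]
      push_cast
      ring

/-- the two triangles of the parallelogram with corner `p` and sides `u`, `v` -/
def gtris (p u v : Pt) : List Tr :=
  [⟨p, p.add u, (p.add u).add v⟩, ⟨p, (p.add u).add v, p.add v⟩]

theorem Tl_gtris {p u v : Pt} (hu : u.val ≠ 0) (h : PT (v.val / u.val)) :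
    Tl (gset (gtris p u v)) := by
  have h1 := Tl_image h.2 hu p.val
  rw [← pgram_eq, image_union, sim_image, sim_image] at h1
  have e1 : u.val * (v.val / u.val) = v.val := by field_simp
  simp only [mul_zero, zero_add, mul_one, mul_add, e1] at h1
  unfold gtris gset gset gset Tr.set
  rw [union_empty]
  simp only [Pt.val_add]
  convert h1 using 2
  · congr 1 <;> ring
  · congr 1 <;> ring

/-- A piece of a dissection: a mirrored copy of `T0`, a copy of a library region, or a
parallelogram with sides `u`, `v`. -/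
inductive Pc2 where
  | M (t : Tr)
  | L (k : ℕ) (a b : Pt) (l : List Tr)
  | G (p u v : Pt) (D : ℕ) (c : List (ℕ × ℕ))

def Pc2.tris : Pc2 → List Tr
  | M t => [t]
  | L _ _ _ l => l
  | G p u v _ _ => gtris p u v

def okG (F : List Fct) (u v : Pt) (D : ℕ) (c : List (ℕ × ℕ)) : Bool :=
  match c with
  | [] => false
  | (k, n) :: l => match F[k]? with
    | some f => (okc F f.t ((k, n) :: l) && decide (0 < D)) &&
      (!(u.beq ⟨⟨0, 0⟩, ⟨0, 0⟩⟩) && Pt.beq (Pt.nat D v) (u.mul (sumc F ((k, n) :: l))))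
    | none => false

def Pc2.ok (lib : List Entry) (F : List Fct) : Pc2 → Bool
  | M t => mirr t.swap
  | L k a b l => match lib[k]? with
    | some e => (!(e.b.beq e.a) && !(b.beq a)) && corrAll e.a e.b a b e.l l
    | none => false
  | G _ u v D c => okG F u v D c

theorem okG_spec {F : List Fct} (hF : AllPT F) {u v : Pt} {D : ℕ} {c : List (ℕ × ℕ)}
    (h : okG F u v D c = true) : u.val ≠ 0 ∧ PT (v.val / u.val) := by
  unfold okG at h
  cases c with
  | nil => simp at h
  | cons x l =>
    obtain ⟨k, n⟩ := x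
    simp only at h
    cases hk : F[k]? with
    | none => rw [hk] at h; simp at h
    | some f =>
      rw [hk] at h
      simp only [Bool.and_eq_true, decide_eq_true_eq, Bool.not_eq_true'] at h
      obtain ⟨⟨h1, h2⟩, h3, h4⟩ := h
      have hu : u.val ≠ 0 := by
        intro h0
        have e1 := congrArg Complex.re h0
        have e2 := congrArg Complex.im h0
        simp only [Pt.val, Complex.zero_re, Complex.zero_im] at e1 e2
        obtain ⟨a1, a2⟩ := Z2.val_eq_zero e1
        obtain ⟨a3, a4⟩ := Z2.val_eq_zero e2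
        have : u.beq ⟨⟨0, 0⟩, ⟨0, 0⟩⟩ = true := by simp [Pt.beq, Z2.beq, a1, a2, a3, a4]
        rw [this] at h3
        exact absurd h3 (by simp)
      refine ⟨hu, ?_⟩
      have h5 := ((okc_spec hF h2 h1).2 (by simp)).1
      have h6 := congrArg Pt.val (Pt.eq_of_beq h4)
      rw [Pt.val_nat, Pt.val_mul] at h6
      have hD : ((D : ℕ) : ℂ) ≠ 0 := by exact_mod_cast h2.ne'
      have h7 : (sumc F ((k, n) :: l)).val / D = v.val / u.val := by
        rw [div_eq_div_iff hD hu]
        linear_combination -h6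
      rwa [h7] at h5

def okAll2 (lib : List Entry) (F : List Fct) : List Pc2 → Bool
  | [] => true
  | x :: l => x.ok lib F && okAll2 lib F l

theorem okAll2_spec {lib : List Entry} {F : List Fct} : ∀ {l : List Pc2},
    okAll2 lib F l = true → ∀ x ∈ l, x.ok lib F = true
  | [], _, x, hx => by simp at hx
  | y :: l, h, x, hx => by
    unfold okAll2 at h
    rw [Bool.and_eq_true] at h
    rcases List.mem_cons.mp hx with rfl | hx
    · exact h.1
    · exact okAll2_spec h.2 x hx

def flat2 : List Pc2 → List Tr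
  | [] => []
  | x :: l => x.tris ++ flat2 l

theorem flat2_eq : ∀ l : List Pc2, flat2 l = (l.map Pc2.tris).flatten
  | [] => rfl
  | x :: l => by simp [flat2, flat2_eq l]

theorem Pc2.tl {lib : List Entry} {F : List Fct} (hlib : AllTl lib) (hF : AllPT F) {x : Pc2}
    (h : x.ok lib F = true) (hpos : ∀ t ∈ x.tris, 0 < t.ar) : Tl (gset x.tris) := by
  cases x with
  | M t =>
    change Tl (gset [t])
    rw [gset_singleton, ← Tr.swap_set]
    apply Tl_of_mirr h
    rw [Tr.swap_ar]
    have := hpos t (by simp [Pc2.tris])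
    exact neg_ne_zero.mpr this.ne'
  | L k a b l =>
    change Tl (gset l)
    change (match lib[k]? with
      | some e => (!(e.b.beq e.a) && !(b.beq a)) && corrAll e.a e.b a b e.l l
      | none => false) = true at h
    cases hk : lib[k]? with
    | none => rw [hk] at h; exact absurd h (by simp)
    | some e =>
      rw [hk] at h
      simp only [Bool.and_eq_true, Bool.not_eq_true'] at h
      exact Tl_of_corr h.1.1 h.1.2 h.2 (AllTl_spec hlib e (List.mem_of_getElem? hk))
  | G p u v D c =>
    change Tl (gset (gtris p u v))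
    obtain ⟨h1, h2⟩ := okG_spec hF (h : okG F u v D c = true)
    exact Tl_gtris h1 h2

/-- Main checker: mirrored copies, copies of library regions, parallelograms. -/
theorem Tl_of_pieces2 {lib : List Entry} {F : List Fct} (hlib : AllTl lib) (hF : AllPT F)
    {R : Reg} {P : List Pc2} (h : check R (flat2 P) = true) (hok : okAll2 lib F P = true) :
    Tl R.set := by
  have hd := dissects_of_check h
  rw [flat2_eq] at h
  apply Tl_of_groups h
  intro g hg
  obtain ⟨x, hx, rfl⟩ := List.mem_map.mp hg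
  apply Pc2.tl hlib hF (okAll2_spec hok x hx)
  intro t ht
  apply hd.pos
  rw [flat2_eq]
  exact List.mem_flatten.mpr ⟨_, hg, ht⟩

/-- A library entry from a region. -/
theorem Tl_entry {R : Reg} {l : List Tr} (h : Tl R.set) (hc : check R l = true) :
    Tl (gset l) := by
  rw [(dissects_of_check hc).cover]
  exact h

/-- A fact about parallelograms from a tiled parallelogram with corner `p` and sides `u`, `v`. -/
def okF (u v t : Pt) (m : ℕ) : Bool :=
  (decide (0 < m) && Z2.pos (Pt.crs u v)) && Pt.beq (Pt.nat m v) (u.mul t)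

theorem Fct_of_gtris {p u v t : Pt} {m : ℕ} (h : Tl (gset (gtris p u v)))
    (hc : okF u v t m = true) : Fct.ok ⟨t, m⟩ := by
  unfold okF at hc
  simp only [Bool.and_eq_true, decide_eq_true_eq] at hc
  obtain ⟨⟨h1, h2⟩, h3⟩ := hc
  refine ⟨h1, ?_⟩
  have h4 := Z2.val_pos h2
  rw [Pt.val_crs] at h4
  have hu : u.val ≠ 0 := by
    intro h0; rw [h0] at h4; simp [cross] at h4
  have h6 := congrArg Pt.val (Pt.eq_of_beq h3)
  rw [Pt.val_nat, Pt.val_mul] at h6
  have hm : ((m : ℕ) : ℂ) ≠ 0 := by exact_mod_cast h1.ne'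
  have h7 : t.val / m = v.val / u.val := by
    rw [div_eq_div_iff hm hu]
    linear_combination -h6
  change PT (t.val / m)
  rw [h7]
  constructor
  · rw [Complex.div_im]
    have hn : 0 < Complex.normSq u.val := Complex.normSq_pos.mpr hu
    rw [← sub_div]
    apply div_pos _ hn
    unfold cross at h4
    linarith
  · have h5 := Tl_image h (r := 1 / u.val) (div_ne_zero one_ne_zero hu) (-(p.val / u.val))
    rw [← pgram_eq]
    unfold gtris gset gset gset Tr.set at h5
    rw [union_empty, image_union, sim_image, sim_image] at h5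
    simp only [Pt.val_add] at h5
    convert h5 using 2
    · congr 1
      · field_simp; ring
      · field_simp; ring
      · field_simp; ring
    · congr 1
      · field_simp; ring
      · field_simp; ring
      · field_simp; ring

/-- Rotated fact: `(t'/m') * (t/m) = -1`. -/
theorem Fct_rot {t t' : Pt} {m m' : ℕ} (h : Fct.ok ⟨t, m⟩) (hm' : 0 < m')
    (hc : Pt.beq (t'.mul t) ⟨⟨-(m * m' : ℤ), 0⟩, ⟨0, 0⟩⟩ = true) : Fct.ok ⟨t', m'⟩ := by
  refine ⟨hm', ?_⟩
  have h1 := PT_rot h.2
  have h0 : t.val ≠ 0 := by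
    intro h0; have := h.2.1; simp only [h0] at this; simp at this
  have h6 := congrArg Pt.val (Pt.eq_of_beq hc)
  rw [Pt.val_mul] at h6
  have hm : ((m : ℕ) : ℂ) ≠ 0 := by exact_mod_cast (h.1 : 0 < m).ne'
  have hm'' : ((m' : ℕ) : ℂ) ≠ 0 := by exact_mod_cast hm'.ne'
  have h8 : Pt.val ⟨⟨-(m * m' : ℤ), 0⟩, ⟨0, 0⟩⟩ = -(m * m' : ℂ) := by
    apply Complex.ext <;> simp [Pt.val, Z2.val]
  rw [h8] at h6
  have h7 : -1 / (t.val / m) = t'.val / m' := by
    field_simp
    linear_combination -h6
  simp only at h1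
  rw [h7] at h1
  exact h1

end Pool.Agent.Helper37.Dis
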