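import Pool.Agent.Helper37.Dis.Lib

/-!
A square dissected into 43 mirrored copies of `T0` (found by helper52).
-/

namespace Pool.Agent.Helper37.Dis

def sqR : Reg := .Q ⟨⟨-16, 0⟩, ⟨0, 0⟩⟩ ⟨⟨0, 0⟩, ⟨0, 0⟩⟩ ⟨⟨0, 0⟩, ⟨16, 0⟩⟩ ⟨⟨-16, 0⟩, ⟨16, 0⟩⟩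

def sqP : List Pc := [
  .M ⟨⟨⟨-8, 4⟩, ⟨0, 0⟩⟩, ⟨⟨-12, 0⟩, ⟨4, 0⟩⟩, ⟨⟨-16, 0⟩, ⟨0, 0⟩⟩⟩,
  .M ⟨⟨⟨-8, 0⟩, ⟨8, -2⟩⟩, ⟨⟨-10, -2⟩, ⟨10, -2⟩⟩, ⟨⟨-12, -2⟩, ⟨8, -2⟩⟩⟩,
  .M ⟨⟨⟨-6, 2⟩, ⟨6, 2⟩⟩, ⟨⟨-8, 0⟩, ⟨8, 2⟩⟩, ⟨⟨-10, 0⟩, ⟨6, 2⟩⟩⟩,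
  .M ⟨⟨⟨-8, 2⟩, ⟨4, -2⟩⟩, ⟨⟨-12, 2⟩, ⟨8, -2⟩⟩, ⟨⟨-12, 0⟩, ⟨4, 0⟩⟩⟩,
  .M ⟨⟨⟨-12, 0⟩, ⟨12, 0⟩⟩, ⟨⟨-8, -4⟩, ⟨16, 0⟩⟩, ⟨⟨-16, 0⟩, ⟨16, 0⟩⟩⟩,
  .M ⟨⟨⟨-14, 1⟩, ⟨8, -3⟩⟩, ⟨⟨-14, -1⟩, ⟨8, -3⟩⟩, ⟨⟨-16, 0⟩, ⟨8, -4⟩⟩⟩,
  .M ⟨⟨⟨-12, 0⟩, ⟨8, -2⟩⟩, ⟨⟨-12, -2⟩, ⟨8, -2⟩⟩, ⟨⟨-14, -1⟩, ⟨8, -3⟩⟩⟩,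
  .M ⟨⟨⟨-12, 2⟩, ⟨8, -2⟩⟩, ⟨⟨-12, 0⟩, ⟨8, -2⟩⟩, ⟨⟨-14, 1⟩, ⟨8, -3⟩⟩⟩,
  .M ⟨⟨⟨-2, 1⟩, ⟨8, 3⟩⟩, ⟨⟨-2, -1⟩, ⟨8, 3⟩⟩, ⟨⟨-4, 0⟩, ⟨8, 2⟩⟩⟩,
  .M ⟨⟨⟨-8, 0⟩, ⟨8, -2⟩⟩, ⟨⟨-8, -2⟩, ⟨8, 0⟩⟩, ⟨⟨-10, -2⟩, ⟨10, -2⟩⟩⟩,
  .M ⟨⟨⟨-14, 0⟩, ⟨6, -2⟩⟩, ⟨⟨-16, 0⟩, ⟨8, -4⟩⟩, ⟨⟨-16, 0⟩, ⟨4, -2⟩⟩⟩,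
  .M ⟨⟨⟨-14, 0⟩, ⟨2, 0⟩⟩, ⟨⟨-16, 0⟩, ⟨4, -2⟩⟩, ⟨⟨-16, 0⟩, ⟨0, 0⟩⟩⟩,
  .M ⟨⟨⟨-12, 0⟩, ⟨4, 0⟩⟩, ⟨⟨-14, 0⟩, ⟨6, -2⟩⟩, ⟨⟨-14, 0⟩, ⟨2, 0⟩⟩⟩,
  .M ⟨⟨⟨-10, 2⟩, ⟨6, -2⟩⟩, ⟨⟨-8, 0⟩, ⟨8, -2⟩⟩, ⟨⟨-12, 2⟩, ⟨8, -2⟩⟩⟩,
  .M ⟨⟨⟨-8, 2⟩, ⟨4, -2⟩⟩, ⟨⟨-6, 0⟩, ⟨6, -2⟩⟩, ⟨⟨-10, 2⟩, ⟨6, -2⟩⟩⟩,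
  .M ⟨⟨⟨-6, 0⟩, ⟨6, -2⟩⟩, ⟨⟨-8, 0⟩, ⟨8, 0⟩⟩, ⟨⟨-8, -2⟩, ⟨8, 0⟩⟩⟩,
  .M ⟨⟨⟨0, 0⟩, ⟨8, 4⟩⟩, ⟨⟨-4, 0⟩, ⟨4, 0⟩⟩, ⟨⟨0, 0⟩, ⟨0, 0⟩⟩⟩,
  .M ⟨⟨⟨-4, 2⟩, ⟨8, 2⟩⟩, ⟨⟨-8, 2⟩, ⟨4, 2⟩⟩, ⟨⟨-4, 0⟩, ⟨4, 0⟩⟩⟩,
  .M ⟨⟨⟨-8, 0⟩, ⟨8, 0⟩⟩, ⟨⟨-10, 0⟩, ⟨6, 2⟩⟩, ⟨⟨-8, -2⟩, ⟨8, 0⟩⟩⟩,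
  .M ⟨⟨⟨-8, 2⟩, ⟨4, 0⟩⟩, ⟨⟨-8, 2⟩, ⟨4, -2⟩⟩, ⟨⟨-8, 3⟩, ⟨2, -1⟩⟩⟩,
  .M ⟨⟨⟨-8, 3⟩, ⟨2, 1⟩⟩, ⟨⟨-8, 3⟩, ⟨2, -1⟩⟩, ⟨⟨-8, 4⟩, ⟨0, 0⟩⟩⟩,
  .M ⟨⟨⟨-8, 2⟩, ⟨4, 2⟩⟩, ⟨⟨-8, 2⟩, ⟨4, 0⟩⟩, ⟨⟨-8, 3⟩, ⟨2, 1⟩⟩⟩,
  .M ⟨⟨⟨-8, 3⟩, ⟨2, -1⟩⟩, ⟨⟨-8, 3⟩, ⟨2, 1⟩⟩, ⟨⟨-8, 2⟩, ⟨4, 0⟩⟩⟩,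
  .M ⟨⟨⟨-8, -2⟩, ⟨12, -2⟩⟩, ⟨⟨-8, -2⟩, ⟨12, 2⟩⟩, ⟨⟨-8, -4⟩, ⟨16, 0⟩⟩⟩,
  .M ⟨⟨⟨-8, 2⟩, ⟨4, -2⟩⟩, ⟨⟨-8, 2⟩, ⟨4, 2⟩⟩, ⟨⟨-8, 0⟩, ⟨8, 0⟩⟩⟩,
  .M ⟨⟨⟨-8, -2⟩, ⟨8, 0⟩⟩, ⟨⟨-6, -2⟩, ⟨10, 2⟩⟩, ⟨⟨-8, -2⟩, ⟨12, 2⟩⟩⟩,
  .M ⟨⟨⟨-12, -2⟩, ⟨8, -2⟩⟩, ⟨⟨-8, -2⟩, ⟨12, -2⟩⟩, ⟨⟨-12, 0⟩, ⟨12, 0⟩⟩⟩,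
  .M ⟨⟨⟨-16, 0⟩, ⟨8, -4⟩⟩, ⟨⟨-12, 0⟩, ⟨12, 0⟩⟩, ⟨⟨-16, 0⟩, ⟨16, 0⟩⟩⟩,
  .M ⟨⟨⟨-8, 0⟩, ⟨8, -2⟩⟩, ⟨⟨-10, 2⟩, ⟨6, -2⟩⟩, ⟨⟨-6, 0⟩, ⟨6, -2⟩⟩⟩,
  .M ⟨⟨⟨-6, -2⟩, ⟨10, 2⟩⟩, ⟨⟨-8, 0⟩, ⟨8, 2⟩⟩, ⟨⟨-4, -2⟩, ⟨8, 2⟩⟩⟩,
  .M ⟨⟨⟨-16, 0⟩, ⟨4, -2⟩⟩, ⟨⟨-14, 0⟩, ⟨2, 0⟩⟩, ⟨⟨-14, 0⟩, ⟨6, -2⟩⟩⟩,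
  .M ⟨⟨⟨-10, -2⟩, ⟨10, -2⟩⟩, ⟨⟨-8, -2⟩, ⟨8, 0⟩⟩, ⟨⟨-8, -2⟩, ⟨12, -2⟩⟩⟩,
  .M ⟨⟨⟨-14, -1⟩, ⟨8, -3⟩⟩, ⟨⟨-14, 1⟩, ⟨8, -3⟩⟩, ⟨⟨-12, 0⟩, ⟨8, -2⟩⟩⟩,
  .M ⟨⟨⟨-4, -2⟩, ⟨8, 2⟩⟩, ⟨⟨-4, 0⟩, ⟨8, 2⟩⟩, ⟨⟨-2, -1⟩, ⟨8, 3⟩⟩⟩,
  .M ⟨⟨⟨-4, 0⟩, ⟨8, 2⟩⟩, ⟨⟨-4, 2⟩, ⟨8, 2⟩⟩, ⟨⟨-2, 1⟩, ⟨8, 3⟩⟩⟩,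
  .M ⟨⟨⟨-2, -1⟩, ⟨8, 3⟩⟩, ⟨⟨-2, 1⟩, ⟨8, 3⟩⟩, ⟨⟨0, 0⟩, ⟨8, 4⟩⟩⟩,
  .M ⟨⟨⟨-8, -2⟩, ⟨8, 0⟩⟩, ⟨⟨-8, 0⟩, ⟨8, 2⟩⟩, ⟨⟨-6, -2⟩, ⟨10, 2⟩⟩⟩,
  .M ⟨⟨⟨-4, 0⟩, ⟨4, 0⟩⟩, ⟨⟨-8, 4⟩, ⟨0, 0⟩⟩, ⟨⟨0, 0⟩, ⟨0, 0⟩⟩⟩,
  .M ⟨⟨⟨-8, -2⟩, ⟨12, 2⟩⟩, ⟨⟨-4, -2⟩, ⟨8, 2⟩⟩, ⟨⟨-4, 0⟩, ⟨12, 0⟩⟩⟩,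
  .M ⟨⟨⟨-4, 0⟩, ⟨12, 0⟩⟩, ⟨⟨0, 0⟩, ⟨8, 4⟩⟩, ⟨⟨0, 0⟩, ⟨16, 0⟩⟩⟩,
  .M ⟨⟨⟨-10, 0⟩, ⟨6, 2⟩⟩, ⟨⟨-8, 2⟩, ⟨4, 2⟩⟩, ⟨⟨-6, 2⟩, ⟨6, 2⟩⟩⟩,
  .M ⟨⟨⟨-8, 0⟩, ⟨8, 2⟩⟩, ⟨⟨-6, 2⟩, ⟨6, 2⟩⟩, ⟨⟨-4, 2⟩, ⟨8, 2⟩⟩⟩,
  .M ⟨⟨⟨-8, -4⟩, ⟨16, 0⟩⟩, ⟨⟨-4, 0⟩, ⟨12, 0⟩⟩, ⟨⟨0, 0⟩, ⟨16, 0⟩⟩⟩]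

theorem sq_check : check sqR (flat sqP) = true := by decide +kernel

theorem sq_ok : okAll [] sqP = true := by decide +kernel

theorem sq_tl : Tl sqR.set := Tl_of_mirrors sq_check sq_ok

end Pool.Agent.Helper37.Dis
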