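import Pool.Agent.Helper37.Dis.Check

/-!
Sets that can be tiled by mirrored copies of the triangle with angles `π/8, π/4, 5π/8`.
-/

open MeasureTheory Set
open scoped ComplexConjugate

namespace Pool.Agent.Helper37.Dis

/-- The triangle with vertices `0, 2 + √2, 1 + √2 + i`; its angles are `π/8, π/4, 5π/8`. -/
def T0 : Tr := ⟨⟨⟨0, 0⟩, ⟨0, 0⟩⟩, ⟨⟨2, 1⟩, ⟨0, 0⟩⟩, ⟨⟨1, 1⟩, ⟨1, 0⟩⟩⟩

/-- An orientation reversing similarity (for `p ≠ 0`). -/
noncomputable def opp (p q z : ℂ) : ℂ := p * conj z + q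

/-- `P` can be dissected into finitely many mirrored copies of `T0`. -/
def Tl (P : Set ℂ) : Prop :=
  ∃ (ι : Type) (_ : Fintype ι) (p q : ι → ℂ), (∀ i, p i ≠ 0) ∧
    Pairwise (fun i j => Disjoint (interior (opp (p i) (q i) '' T0.set))
      (interior (opp (p j) (q j) '' T0.set))) ∧
    ⋃ i, opp (p i) (q i) '' T0.set = P

theorem opp_image (p q a b c : ℂ) :
    opp p q '' tri a b c = tri (opp p q a) (opp p q b) (opp p q c) := by
  have h := AffineMap.image_convexHull (𝕜 := ℝ)
    ((AffineMap.const ℝ ℂ q + ((LinearMap.mulLeft ℝ p).toAffineMap.comp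
      (Complex.conjLIE.toLinearEquiv.toLinearMap.toAffineMap)) : ℂ →ᵃ[ℝ] ℂ)) ({a, b, c} : Set ℂ)
  have h4 : ((AffineMap.const ℝ ℂ q + ((LinearMap.mulLeft ℝ p).toAffineMap.comp
      (Complex.conjLIE.toLinearEquiv.toLinearMap.toAffineMap)) : ℂ →ᵃ[ℝ] ℂ) : ℂ → ℂ) =
      opp p q := by
    ext z; simp [opp, add_comm]
  rw [h4] at h
  unfold tri
  rw [h]
  congr 1
  simp [image_insert_eq]

/-- Union of finitely many interior disjoint tileable sets. -/
theorem Tl_iUnion {κ : Type} [Fintype κ] {P : κ → Set ℂ} (h : ∀ k, Tl (P k))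
    (hd : Pairwise fun k l => Disjoint (interior (P k)) (interior (P l))) : Tl (⋃ k, P k) := by
  classical
  choose ι F p q h0 h1 h2 using h
  refine ⟨Σ k, ι k, inferInstance, fun x => p x.1 x.2, fun x => q x.1 x.2, fun x => h0 _ _, ?_, ?_⟩
  · rintro ⟨k, i⟩ ⟨l, j⟩ hne
    by_cases hkl : k = l
    · subst hkl
      exact h1 k (fun hij => hne (by cases hij; rfl))
    · have hs1 : interior (opp (p k i) (q k i) '' T0.set) ⊆ interior (P k) := by
        apply interior_mono
        rw [← h2 k]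
        exact subset_iUnion (fun i => opp (p k i) (q k i) '' T0.set) i
      have hs2 : interior (opp (p l j) (q l j) '' T0.set) ⊆ interior (P l) := by
        apply interior_mono
        rw [← h2 l]
        exact subset_iUnion (fun i => opp (p l i) (q l i) '' T0.set) j
      exact (hd hkl).mono hs1 hs2
  · rw [iUnion_sigma]
    exact iUnion_congr h2

/-- Image under a direct similarity. -/
theorem Tl_image {P : Set ℂ} (h : Tl P) {r : ℂ} (hr : r ≠ 0) (s : ℂ) :
    Tl ((fun z => r * z + s) '' P) := by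
  obtain ⟨ι, F, p, q, h0, h1, h2⟩ := h
  have hcomp : ∀ i, (fun z => r * z + s) '' (opp (p i) (q i) '' T0.set) =
      opp (r * p i) (r * q i + s) '' T0.set := by
    intro i
    rw [image_image]
    congr 1
    ext z
    simp [opp]; ring
  refine ⟨ι, F, fun i => r * p i, fun i => r * q i + s, fun i => mul_ne_zero hr (h0 i), ?_, ?_⟩
  · intro i j hij
    rw [← hcomp, ← hcomp]
    let e : ℂ ≃ₜ ℂ := (Homeomorph.mulLeft₀ r hr).trans (Homeomorph.addRight s)
    have he : (fun z => r * z + s) = e := by ext z; simp [e]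
    rw [he, ← e.image_interior, ← e.image_interior]
    exact (disjoint_image_iff e.injective).mpr (h1 hij)
  · rw [← h2, image_iUnion]
    exact iUnion_congr fun i => (hcomp i).symm

/-- complex multiplication with the conjugate of the second factor -/
def Pt.mulConj (u v : Pt) : Pt :=
  ⟨(u.x.mul v.x).add (u.y.mul v.y), (u.y.mul v.x).sub (u.x.mul v.y)⟩

theorem Pt.val_mulConj (u v : Pt) : (u.mulConj v).val = u.val * conj v.val := by
  apply Complex.ext
  · simp [Pt.mulConj, Pt.val, Z2.val_add, Z2.val_mul]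
  · simp [Pt.mulConj, Pt.val, Z2.val_sub, Z2.val_mul]; ring

def Pt.beq (u v : Pt) : Bool := Z2.beq u.x v.x && Z2.beq u.y v.y

theorem Pt.eq_of_beq {u v : Pt} (h : u.beq v = true) : u = v := by
  unfold Pt.beq at h
  rw [Bool.and_eq_true] at h
  have h1 := Z2.eq_of_beq h.1
  have h2 := Z2.eq_of_beq h.2
  cases u; cases v; simp_all

/-- `t` (as an ordered triple) is a mirrored copy of `T0` -/
def mirr (t : Tr) : Bool :=
  Pt.beq ((t.q.sub t.p).mulConj (T0.r.sub T0.p)) ((t.r.sub t.p).mulConj (T0.q.sub T0.p))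

theorem T0_ar_pos : 0 < T0.ar := by
  rw [← Tr.val_area]
  apply Z2.val_pos
  decide

theorem Tl_of_mirr {t : Tr} (h : mirr t = true) (ht : t.ar ≠ 0) : Tl t.set := by
  have h1 := congrArg Pt.val (Pt.eq_of_beq h)
  rw [Pt.val_mulConj, Pt.val_mulConj, Pt.val_sub, Pt.val_sub, Pt.val_sub, Pt.val_sub] at h1
  have hB : T0.q.val - T0.p.val ≠ 0 := by
    intro h0
    have := T0_ar_pos
    unfold Tr.ar at this
    rw [h0] at this
    simp [cross] at this
  have hB' : conj (T0.q.val) - conj (T0.p.val) ≠ 0 := by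
    rw [← map_sub]; exact (map_ne_zero _).mpr hB
  have hu : t.q.val - t.p.val ≠ 0 := by
    intro h0
    apply ht
    unfold Tr.ar
    rw [h0]; simp [cross]
  rw [map_sub, map_sub] at h1
  set p0 : ℂ := (t.q.val - t.p.val) / (conj (T0.q.val) - conj (T0.p.val)) with hp0
  have e1 : opp p0 (t.p.val - p0 * conj T0.p.val) T0.p.val = t.p.val := by
    simp [opp]
  have e2 : opp p0 (t.p.val - p0 * conj T0.p.val) T0.q.val = t.q.val := by
    simp only [opp]
    rw [hp0]
    field_simp
    ring
  have e3 : opp p0 (t.p.val - p0 * conj T0.p.val) T0.r.val = t.r.val := by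
    simp only [opp]
    rw [hp0]
    field_simp
    linear_combination h1
  refine ⟨Unit, inferInstance, fun _ => p0, fun _ => t.p.val - p0 * conj T0.p.val,
    fun _ => div_ne_zero hu hB', ?_, ?_⟩
  · intro i j hij
    exact absurd (Subsingleton.elim i j) hij
  · rw [iUnion_const]
    unfold Tr.set
    rw [opp_image, e1, e2, e3]

/-- Interiors of finite unions of triangles. -/
theorem disjoint_interior_gset {W : Set ℂ} (hW : IsOpen W) : ∀ {l : List Tr},
    (∀ t ∈ l, Disjoint (interior t.set) W) → Disjoint (interior (gset l)) W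
  | [], _ => by simp [gset]
  | t :: l, h => by
    unfold gset
    exact disjoint_interior_union (isCompact_tri _ _ _).isClosed hW (h t (by simp))
      (disjoint_interior_gset hW fun s hs => h s (by simp [hs]))

/-- A region dissected into groups of triangles, every group being tileable, is tileable. -/
theorem Tl_of_groups {R : Reg} {G : List (List Tr)} (h : check R G.flatten = true)
    (hG : ∀ g ∈ G, Tl (gset g)) : Tl R.set := by
  have hd := dissects_of_check h
  have hp := List.pairwise_flatten.mp hd.disj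
  have hdis : G.Pairwise fun g₁ g₂ => Disjoint (interior (gset g₁)) (interior (gset g₂)) := by
    apply hp.2.imp
    intro g₁ g₂ h12
    apply disjoint_interior_gset isOpen_interior
    intro s hs
    apply Disjoint.symm
    apply disjoint_interior_gset isOpen_interior
    intro t ht
    exact (h12 s hs t ht).symm
  have hU : (⋃ k : Fin G.length, gset (G.get k)) = R.set := by
    rw [← hd.cover]
    ext z
    rw [mem_iUnion, mem_gset]
    constructor
    · rintro ⟨k, hk⟩
      obtain ⟨t, ht, hz⟩ := mem_gset.mp hk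
      exact ⟨t, List.mem_flatten.mpr ⟨_, List.get_mem G k, ht⟩, hz⟩
    · rintro ⟨t, ht, hz⟩
      obtain ⟨g, hg, htg⟩ := List.mem_flatten.mp ht
      obtain ⟨k, hk⟩ := List.get_of_mem hg
      exact ⟨k, mem_gset.mpr ⟨t, by rw [hk]; exact htg, hz⟩⟩
  rw [← hU]
  apply Tl_iUnion (fun k => hG _ (List.get_mem G k))
  intro i j hij
  rcases lt_or_gt_of_ne hij with h | h
  · exact (List.pairwise_iff_get.mp hdis i j h)
  · exact (List.pairwise_iff_get.mp hdis j i h).symm

/-- complex multiplication -/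
def Pt.mul (u v : Pt) : Pt :=
  ⟨(u.x.mul v.x).sub (u.y.mul v.y), (u.x.mul v.y).add (u.y.mul v.x)⟩

theorem Pt.val_mul (u v : Pt) : (u.mul v).val = u.val * v.val := by
  apply Complex.ext
  · simp [Pt.mul, Pt.val, Z2.val_sub, Z2.val_mul]
  · simp [Pt.mul, Pt.val, Z2.val_add, Z2.val_mul]

/-- `z` corresponds to `z₀` under the direct similarity mapping `a₀ ↦ a`, `b₀ ↦ b`. -/
def corr (a₀ b₀ a b z₀ z : Pt) : Bool :=
  Pt.beq ((z.sub a).mul (b₀.sub a₀)) ((z₀.sub a₀).mul (b.sub a))

theorem corr_spec {a₀ b₀ a b z₀ z : Pt} (h : corr a₀ b₀ a b z₀ z = true)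
    (hb : b₀.val - a₀.val ≠ 0) :
    (b.val - a.val) / (b₀.val - a₀.val) * z₀.val +
      (a.val - (b.val - a.val) / (b₀.val - a₀.val) * a₀.val) = z.val := by
  have h1 := congrArg Pt.val (Pt.eq_of_beq h)
  rw [Pt.val_mul, Pt.val_mul, Pt.val_sub, Pt.val_sub, Pt.val_sub, Pt.val_sub] at h1
  field_simp
  linear_combination -h1

/-- lists of triangles corresponding to each other -/
def corrAll (a₀ b₀ a b : Pt) : List Tr → List Tr → Bool
  | [], [] => true
  | t₀ :: l₀, t :: l => ((corr a₀ b₀ a b t₀.p t.p && corr a₀ b₀ a b t₀.q t.q) &&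
      corr a₀ b₀ a b t₀.r t.r) && corrAll a₀ b₀ a b l₀ l
  | _, _ => false

theorem sim_image (r s a b c : ℂ) :
    (fun z => r * z + s) '' tri a b c = tri (r * a + s) (r * b + s) (r * c + s) := by
  have h := AffineMap.image_convexHull (𝕜 := ℝ)
    ((AffineMap.const ℝ ℂ s + (LinearMap.mulLeft ℝ r).toAffineMap : ℂ →ᵃ[ℝ] ℂ))
    ({a, b, c} : Set ℂ)
  have h4 : ((AffineMap.const ℝ ℂ s + (LinearMap.mulLeft ℝ r).toAffineMap : ℂ →ᵃ[ℝ] ℂ) :
      ℂ → ℂ) = fun z => r * z + s := by
    ext z; simp [add_comm]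
  rw [h4] at h
  unfold tri
  rw [h]
  congr 1
  simp [image_insert_eq]

theorem corrAll_spec {a₀ b₀ a b : Pt} (hb : b₀.val - a₀.val ≠ 0) : ∀ {l₀ l : List Tr},
    corrAll a₀ b₀ a b l₀ l = true →
    (fun z => (b.val - a.val) / (b₀.val - a₀.val) * z +
      (a.val - (b.val - a.val) / (b₀.val - a₀.val) * a₀.val)) '' gset l₀ = gset l
  | [], [], _ => by simp [gset]
  | [], _ :: _, h => by simp [corrAll] at h
  | _ :: _, [], h => by simp [corrAll] at h
  | t₀ :: l₀, t :: l, h => by
    unfold corrAll at h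
    simp only [Bool.and_eq_true] at h
    unfold gset
    rw [image_union, corrAll_spec hb h.2]
    congr 1
    unfold Tr.set
    rw [sim_image, corr_spec h.1.1.1 hb, corr_spec h.1.1.2 hb, corr_spec h.1.2 hb]

/-- Groups similar to a tileable group are tileable. -/
theorem Tl_of_corr {a₀ b₀ a b : Pt} {l₀ l : List Tr} (hb : b₀.beq a₀ = false)
    (hb' : b.beq a = false) (h : corrAll a₀ b₀ a b l₀ l = true) (h0 : Tl (gset l₀)) :
    Tl (gset l) := by
  have key : ∀ u v : Pt, u.beq v = false → u.val - v.val ≠ 0 := by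
    intro u v huv h0
    rw [← Pt.val_sub] at h0
    have h1 := congrArg Complex.re h0
    have h2 := congrArg Complex.im h0
    simp only [Pt.val, Complex.zero_re, Complex.zero_im] at h1 h2
    obtain ⟨e1, e2⟩ := Z2.val_eq_zero h1
    obtain ⟨e3, e4⟩ := Z2.val_eq_zero h2
    simp only [Pt.sub, Z2.sub, sub_eq_zero] at e1 e2 e3 e4
    have : u.beq v = true := by simp [Pt.beq, Z2.beq, e1, e2, e3, e4]
    rw [this] at huv
    exact absurd huv (by simp)
  have hb1 := key _ _ hb
  have hb2 := key _ _ hb'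
  rw [← corrAll_spec hb1 h]
  exact Tl_image h0 (div_ne_zero hb2 hb1) _

end Pool.Agent.Helper37.Dis
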